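import Mathlib

set_option autoImplicit false

namespace Pool.Agent.Q80.ND

open Finset Real

/-- cosines on the comb of the points `π j / N` -/
noncomputable def cc (N q j : ℕ) : ℝ := cos (q * (π * j / N))

lemma cc_abs (N q j : ℕ) : |cc N q j| ≤ 1 := abs_cos_le_one _

lemma sum_cos (n : ℕ) (α : ℝ) :
    2 * sin (α / 2) * ∑ j ∈ range n, cos (j * α) = sin ((n - 1 / 2) * α) + sin (α / 2) := by
  induction n with
  | zero =>
    have h : (((0 : ℕ) : ℝ) - 1 / 2) * α = -(α / 2) := by push_cast; ring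
    rw [h, sin_neg]
    simp
  | succ n ih =>
    rw [sum_range_succ, mul_add, ih]
    have h1 : (((n + 1 : ℕ) : ℝ) - 1 / 2) * α = n * α + α / 2 := by push_cast; ring
    have h2 : ((n : ℝ) - 1 / 2) * α = n * α - α / 2 := by ring
    rw [h1, h2, sin_add, sin_sub]
    ring

lemma comb_zero {N : ℕ} (hN : 0 < N) (κ : ℤ) (h : ¬ (2 * (N : ℤ)) ∣ κ) :
    ∑ j ∈ range (2 * N), cos (j * (κ * π / N)) = 0 := by
  have hN' : (N : ℝ) ≠ 0 := by positivity
  have h1 := sum_cos (2 * N) (κ * π / N)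
  have h2 : (((2 * N : ℕ) : ℝ) - 1 / 2) * (κ * π / N) = κ * (2 * π) - κ * π / N / 2 := by
    push_cast
    field_simp
  rw [h2, sin_int_mul_two_pi_sub, neg_add_cancel] at h1
  have h3 : sin (κ * π / N / 2) ≠ 0 := by
    intro h4
    rw [sin_eq_zero_iff] at h4
    obtain ⟨n, hn⟩ := h4
    apply h
    refine ⟨n, ?_⟩
    have h5 : (κ : ℝ) = 2 * N * n := by
      have hpi : π ≠ 0 := pi_ne_zero
      field_simp at hn
      linarith
    exact_mod_cast h5
  rcases mul_eq_zero.1 h1 with h4 | h4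
  · exact absurd (by linarith : sin (κ * π / N / 2) = 0) h3
  · exact h4

lemma comb_full {N : ℕ} (hN : 0 < N) (κ : ℤ) (h : (2 * (N : ℤ)) ∣ κ) :
    ∑ j ∈ range (2 * N), cos (j * (κ * π / N)) = 2 * N := by
  have hN' : (N : ℝ) ≠ 0 := by positivity
  obtain ⟨n, rfl⟩ := h
  have h1 : ∀ j ∈ range (2 * N), cos (j * (((2 * (N : ℤ) * n : ℤ) : ℝ) * π / N)) = 1 := by
    intro j _
    have : (j : ℝ) * (((2 * (N : ℤ) * n : ℤ) : ℝ) * π / N) = ((j * n : ℤ) : ℝ) * (2 * π) := by
      push_cast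
      field_simp
    rw [this, cos_int_mul_two_pi]
  rw [sum_congr rfl h1]
  simp

/-- the weight -/
noncomputable def wt (N q : ℕ) : ℝ := if q = 0 ∨ q = N then 2 * N else N

lemma orth {N : ℕ} (hN : 0 < N) {a b : ℕ} (ha : a ≤ N) (hb : b ≤ N) :
    ∑ j ∈ range (2 * N), cc N a j * cc N b j = if a = b then wt N a else 0 := by
  have hN' : (N : ℝ) ≠ 0 := by positivity
  have h1 : ∀ j ∈ range (2 * N), cc N a j * cc N b j =
      1 / 2 * cos (j * ((((a : ℤ) - b : ℤ) : ℝ) * π / N)) +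
      1 / 2 * cos (j * ((((a : ℤ) + b : ℤ) : ℝ) * π / N)) := by
    intro j _
    unfold cc
    have e1 : (j : ℝ) * ((((a : ℤ) - b : ℤ) : ℝ) * π / N) = a * (π * j / N) - b * (π * j / N) := by
      push_cast
      ring
    have e2 : (j : ℝ) * ((((a : ℤ) + b : ℤ) : ℝ) * π / N) = a * (π * j / N) + b * (π * j / N) := by
      push_cast
      ring
    rw [e1, e2, cos_sub, cos_add]
    ring
  rw [sum_congr rfl h1, sum_add_distrib, ← mul_sum, ← mul_sum]
  by_cases hab : a = b
  · subst hab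
    rw [if_pos rfl, comb_full hN _ (by simp)]
    unfold wt
    by_cases h0 : a = 0 ∨ a = N
    · rw [if_pos h0, comb_full hN]
      · ring
      · rcases h0 with h0 | h0
        · subst h0
          simp
        · subst h0
          exact ⟨1, by ring⟩
    · rw [if_neg h0, comb_zero hN]
      · ring
      · push Not at h0
        rintro ⟨c, hc⟩
        have h2 : 0 < a := Nat.pos_of_ne_zero h0.1
        have h3 : a < N := lt_of_le_of_ne ha h0.2
        have h4 : 0 < c := by
          by_contra h5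
          have : c ≤ 0 := by omega
          nlinarith
        nlinarith
  · rw [if_neg hab, comb_zero hN, comb_zero hN]
    · ring
    · rintro ⟨c, hc⟩
      have h2 : 0 < a + b := by omega
      have h3 : a + b < 2 * N := by omega
      have h4 : 0 < c := by
        by_contra h5
        have : c ≤ 0 := by omega
        have : (0 : ℤ) < a + b := by exact_mod_cast h2
        nlinarith
      have : ((a : ℤ) + b) < 2 * N := by exact_mod_cast h3
      nlinarith
    · rintro ⟨c, hc⟩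
      rcases lt_trichotomy c 0 with h | h | h
      · have : c ≤ -1 := by omega
        nlinarith
      · subst h
        omega
      · have : 1 ≤ c := by omega
        nlinarith

lemma wt_ge {N : ℕ} (q : ℕ) : (N : ℝ) ≤ wt N q := by
  unfold wt
  have : (0 : ℝ) ≤ N := Nat.cast_nonneg _
  split_ifs <;> linarith

/-- a cosine polynomial on the comb -/
noncomputable def G (N : ℕ) (d : ℕ → ℝ) (j : ℕ) : ℝ := ∑ q ∈ range (N + 1), d q * cc N q j

lemma coef {N : ℕ} (hN : 0 < N) (d : ℕ → ℝ) {k : ℕ} (hk : k ≤ N) :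
    ∑ j ∈ range (2 * N), G N d j * cc N k j = d k * wt N k := by
  unfold G
  simp_rw [sum_mul]
  rw [sum_comm]
  have h1 : ∀ q ∈ range (N + 1), ∑ j ∈ range (2 * N), d q * cc N q j * cc N k j =
      if q = k then d k * wt N k else 0 := by
    intro q hq
    have hq' : q ≤ N := by
      rw [mem_range] at hq
      omega
    simp_rw [mul_assoc]
    rw [← mul_sum, orth hN hq' hk]
    split_ifs with h
    · rw [h]
    · simp
  rw [sum_congr rfl h1, sum_ite_eq' (range (N + 1)) k]
  rw [if_pos (by rw [mem_range]; omega)]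

lemma coef_le {N : ℕ} (hN : 0 < N) (d : ℕ → ℝ) {k : ℕ} (hk : k ≤ N) :
    |d k| * wt N k ≤ ∑ j ∈ range (2 * N), |G N d j| := by
  have h0 : 0 ≤ wt N k := le_trans (Nat.cast_nonneg N) (wt_ge k)
  calc |d k| * wt N k = |d k * wt N k| := by rw [abs_mul, abs_of_nonneg h0]
    _ = |∑ j ∈ range (2 * N), G N d j * cc N k j| := by rw [coef hN d hk]
    _ ≤ ∑ j ∈ range (2 * N), |G N d j * cc N k j| := abs_sum_le_sum_abs _ _
    _ ≤ ∑ j ∈ range (2 * N), |G N d j| := by
      refine sum_le_sum fun j _ => ?_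
      rw [abs_mul]
      exact mul_le_of_le_one_right (abs_nonneg _) (cc_abs _ _ _)

lemma coef_le' {N : ℕ} (hN : 0 < N) (d : ℕ → ℝ) {k : ℕ} (hk : k ≤ N) :
    |d k| * N ≤ ∑ j ∈ range (2 * N), |G N d j| :=
  le_trans (mul_le_mul_of_nonneg_left (wt_ge k) (abs_nonneg _)) (coef_le hN d hk)

/-- summation by parts -/
lemma abel (c σ : ℕ → ℝ) (n : ℕ) : ∑ j ∈ range n, σ j * c j =
    σ n * ∑ i ∈ range n, c i - ∑ j ∈ range n, (σ (j + 1) - σ j) * ∑ i ∈ range (j + 1), c i := by
  induction n with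
  | zero => simp
  | succ n ih =>
    rw [sum_range_succ, ih, sum_range_succ (fun j => (σ (j + 1) - σ j) * ∑ i ∈ range (j + 1), c i),
      sum_range_succ c]
    ring

lemma abel_le (c σ : ℕ → ℝ) (B : ℝ) (hB : ∀ n, |∑ i ∈ range n, c i| ≤ B) (n : ℕ)
    (hσ : |σ n| ≤ 1) : |∑ j ∈ range n, σ j * c j| ≤
      B * (1 + ∑ j ∈ range n, |σ (j + 1) - σ j|) := by
  have hB0 : 0 ≤ B := le_trans (abs_nonneg _) (hB 0)
  rw [abel]
  have h1 : |σ n * ∑ i ∈ range n, c i| ≤ B := by
    rw [abs_mul]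
    calc |σ n| * |∑ i ∈ range n, c i| ≤ 1 * B :=
          mul_le_mul hσ (hB n) (abs_nonneg _) (by norm_num)
      _ = B := one_mul B
  have h2 : |∑ j ∈ range n, (σ (j + 1) - σ j) * ∑ i ∈ range (j + 1), c i| ≤
      B * ∑ j ∈ range n, |σ (j + 1) - σ j| := by
    rw [mul_sum]
    refine (abs_sum_le_sum_abs _ _).trans (sum_le_sum fun j _ => ?_)
    rw [abs_mul, mul_comm B]
    exact mul_le_mul_of_nonneg_left (hB _) (abs_nonneg _)
  calc _ ≤ |σ n * ∑ i ∈ range n, c i| +
        |∑ j ∈ range n, (σ (j + 1) - σ j) * ∑ i ∈ range (j + 1), c i| := abs_sub _ _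
    _ ≤ _ := by rw [mul_add, mul_one]; exact add_le_add h1 h2

lemma part_cos {N q : ℕ} (hq : 0 < q) (hqN : q ≤ N) (n : ℕ) :
    |∑ i ∈ range n, cc N q i| ≤ N / q := by
  have hN : 0 < N := by omega
  have hN' : (0 : ℝ) < N := by exact_mod_cast hN
  have hq' : (0 : ℝ) < q := by exact_mod_cast hq
  have hqN' : (q : ℝ) ≤ N := by exact_mod_cast hqN
  have h1 := sum_cos n (q * π / N)
  have h2 : ∀ i ∈ range n, cc N q i = cos (i * (q * π / N)) := by
    intro i _
    unfold cc
    congr 1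
    ring
  rw [sum_congr rfl h2]
  set S := ∑ j ∈ range n, cos (j * (q * π / N)) with hS
  have h3 : (q : ℝ) / N ≤ sin (q * π / N / 2) := by
    have h4 : (q : ℝ) * π / N / 2 ≤ π / 2 := by
      rw [div_div, div_le_div_iff₀ (by positivity) (by norm_num)]
      nlinarith [pi_pos]
    have h5 := mul_le_sin (x := q * π / N / 2) (by positivity) h4
    have h6 : 2 / π * (q * π / N / 2) = q / N := by
      field_simp
    rwa [h6] at h5
  have h7 : 0 < sin (q * π / N / 2) := lt_of_lt_of_le (by positivity) h3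
  have h8 : |2 * sin (q * π / N / 2) * S| ≤ 2 := by
    rw [h1]
    calc _ ≤ |sin ((n - 1 / 2) * (q * π / N))| + |sin (q * π / N / 2)| := abs_add_le _ _
      _ ≤ 1 + 1 := add_le_add (abs_sin_le_one _) (abs_sin_le_one _)
      _ = 2 := by norm_num
  rw [abs_mul, abs_of_pos (by linarith : (0 : ℝ) < 2 * sin (q * π / N / 2))] at h8
  have h9 : (q : ℝ) / N * |S| ≤ 1 := by
    have := mul_le_mul_of_nonneg_right h3 (abs_nonneg S)
    nlinarith
  rw [le_div_iff₀ hq']
  rw [div_mul_eq_mul_div, div_le_one hN'] at h9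
  linarith

end Pool.Agent.Q80.ND
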