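import Pool.Agent.Q80.ND.N1

set_option autoImplicit false

namespace Pool.Agent.Q80.ND

open Finset Real

/-- the sign -/
noncomputable def sg (x : ℝ) : ℝ := if 0 < x then 1 else if x < 0 then -1 else 0

lemma sg_mul (x : ℝ) : sg x * x = |x| := by
  unfold sg
  split_ifs with h1 h2
  · rw [abs_of_pos h1, one_mul]
  · rw [abs_of_neg h2]
    ring
  · have : x = 0 := le_antisymm (not_lt.1 h1) (not_lt.1 h2)
    simp [this]

lemma sg_abs (x : ℝ) : |sg x| ≤ 1 := by
  unfold sg
  split_ifs <;> simp

lemma sg_neg (x : ℝ) : sg (-x) = -sg x := by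
  unfold sg
  rcases lt_trichotomy x 0 with h | h | h
  · rw [if_pos (by linarith), if_neg (by linarith), if_pos h]
    ring
  · subst h
    simp
  · rw [if_neg (by linarith), if_pos (by linarith), if_pos h]

/-- the total variation of the signs on the comb -/
noncomputable def TV (N : ℕ) (d : ℕ → ℝ) : ℝ :=
  ∑ j ∈ range (2 * N), |sg (G N d (j + 1)) - sg (G N d j)|

lemma TV_nonneg (N : ℕ) (d : ℕ → ℝ) : 0 ≤ TV N d := sum_nonneg fun _ _ => abs_nonneg _

/-- the sum of the absolute values -/
noncomputable def A (N : ℕ) (d : ℕ → ℝ) : ℝ := ∑ j ∈ range (2 * N), |G N d j|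

lemma A_nonneg (N : ℕ) (d : ℕ → ℝ) : 0 ≤ A N d := sum_nonneg fun _ _ => abs_nonneg _

/-- the correlation of the signs with a cosine -/
noncomputable def S (N : ℕ) (d : ℕ → ℝ) (q : ℕ) : ℝ :=
  ∑ j ∈ range (2 * N), sg (G N d j) * cc N q j

lemma S_le {N : ℕ} (d : ℕ → ℝ) {q : ℕ} (hq : 0 < q) (hqN : q ≤ N) :
    |S N d q| ≤ N / q * (1 + TV N d) :=
  abel_le (cc N q) (fun j => sg (G N d j)) _ (fun n => part_cos hq hqN n) (2 * N) (sg_abs _)

lemma A_eq (N : ℕ) (d : ℕ → ℝ) : A N d = ∑ q ∈ range (N + 1), d q * S N d q := by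
  unfold A S
  have h1 : ∀ j ∈ range (2 * N), |G N d j| =
      ∑ q ∈ range (N + 1), d q * (sg (G N d j) * cc N q j) := by
    intro j _
    rw [← sg_mul]
    conv_lhs =>
      rw [show sg (G N d j) * G N d j = sg (G N d j) * ∑ q ∈ range (N + 1), d q * cc N q j from rfl]
    rw [mul_sum]
    refine sum_congr rfl fun q _ => ?_
    ring
  rw [sum_congr rfl h1, sum_comm]
  refine sum_congr rfl fun q _ => ?_
  rw [mul_sum]

lemma rest {N L M : ℕ} (hN : 0 < N) (hL : 0 < L) (d : ℕ → ℝ) (p : ℕ)
    (h1 : ∀ q ≤ N, q ≠ p → d q ≠ 0 → L ≤ q)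
    (hM : ((range (N + 1)).filter (fun q => d q ≠ 0)).card ≤ M) :
    |∑ q ∈ (range (N + 1)).erase p, d q * S N d q| ≤ M * (1 + TV N d) / L * A N d := by
  have hL' : (0 : ℝ) < L := by exact_mod_cast hL
  have hN' : (0 : ℝ) < N := by exact_mod_cast hN
  have hT := TV_nonneg N d
  have hA := A_nonneg N d
  have h2 : ∀ q ∈ (range (N + 1)).erase p, |d q * S N d q| ≤
      if d q ≠ 0 then (1 + TV N d) / L * A N d else 0 := by
    intro q hq
    rw [mem_erase, mem_range] at hq
    split_ifs with h
    · have h3 := h1 q (by omega) hq.1 h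
      have h4 := S_le (N := N) d (q := q) (by omega) (by omega)
      have h5 := coef_le' hN d (k := q) (by omega)
      have hq' : (0 : ℝ) < q := by exact_mod_cast (by omega : 0 < q)
      have h3' : (L : ℝ) ≤ q := by exact_mod_cast h3
      rw [abs_mul]
      have h6 : |d q| ≤ A N d / N := by
        rw [le_div_iff₀ hN']
        exact h5
      calc |d q| * |S N d q| ≤ A N d / N * (N / q * (1 + TV N d)) :=
            mul_le_mul h6 h4 (abs_nonneg _) (by positivity)
        _ = A N d * (1 + TV N d) / q := by field_simp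
        _ ≤ A N d * (1 + TV N d) / L := by
            apply div_le_div_of_nonneg_left (by positivity) hL' h3'
        _ = _ := by ring
    · push Not at h
      rw [h]
      simp
  calc _ ≤ ∑ q ∈ (range (N + 1)).erase p, |d q * S N d q| := abs_sum_le_sum_abs _ _
    _ ≤ ∑ q ∈ (range (N + 1)).erase p, (if d q ≠ 0 then (1 + TV N d) / L * A N d else 0) :=
        sum_le_sum h2
    _ ≤ ∑ q ∈ range (N + 1), (if d q ≠ 0 then (1 + TV N d) / L * A N d else 0) := by
        refine sum_le_sum_of_subset_of_nonneg (erase_subset _ _) fun q _ _ => ?_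
        split_ifs
        · positivity
        · exact le_rfl
    _ = ((range (N + 1)).filter (fun q => d q ≠ 0)).card * ((1 + TV N d) / L * A N d) := by
        rw [← sum_filter, sum_const, nsmul_eq_mul]
    _ ≤ M * ((1 + TV N d) / L * A N d) := by
        refine mul_le_mul_of_nonneg_right (by exact_mod_cast hM) (by positivity)
    _ = _ := by ring

lemma A_pos {N : ℕ} (hN : 0 < N) (d : ℕ → ℝ) (hne : ∃ q ≤ N, d q ≠ 0) : 0 < A N d := by
  obtain ⟨q, hq, hd⟩ := hne
  have h1 := coef_le' hN d hq
  have h2 : 0 < |d q| * N := by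
    have : (0 : ℝ) < N := by exact_mod_cast hN
    positivity
  exact lt_of_lt_of_le h2 h1

/-- the case `p = 0` -/
lemma case_zero {N L M : ℕ} (hN : 0 < N) (hL : 0 < L) (d : ℕ → ℝ)
    (h1 : ∀ q ≤ N, q ≠ 0 → d q ≠ 0 → L ≤ q)
    (hM : ((range (N + 1)).filter (fun q => d q ≠ 0)).card ≤ M)
    (h0 : 0 ≤ d 0) (hab : d 0 ≤ |d N|) (hne : ∃ q ≤ N, d q ≠ 0) (hM1 : 1 ≤ M)
    (hη : 8 * M * (M * (1 + TV N d) / L) < 1) : False := by
  have hL' : (0 : ℝ) < L := by exact_mod_cast hL
  have hN' : (0 : ℝ) < N := by exact_mod_cast hN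
  have hM1' : (1 : ℝ) ≤ M := by exact_mod_cast hM1
  have hT := TV_nonneg N d
  have hA := A_pos hN d hne
  obtain ⟨η, hηd⟩ : ∃ η : ℝ, η = M * (1 + TV N d) / L := ⟨_, rfl⟩
  have hη0 : 0 ≤ η := by rw [hηd]; positivity
  rw [← hηd] at hη
  have hη8 : 8 * η < 1 := by nlinarith
  have hr := rest hN hL d 0 h1 hM
  rw [← hηd] at hr
  have hA2 := A_eq N d
  rw [← add_sum_erase (range (N + 1)) _ (by simp : 0 ∈ range (N + 1))] at hA2
  have hr2 := (abs_le.1 hr).2
  -- `d 0 * S 0 ≥ (1 - η) A`
  have h2 : (1 - η) * A N d ≤ d 0 * S N d 0 := by nlinarith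
  have h3 : d 0 * (2 * N) ≤ A N d := by
    have := coef_le hN d (k := 0) (by omega)
    unfold wt at this
    rw [if_pos (Or.inl rfl), abs_of_nonneg h0] at this
    exact this
  have h4 : 0 < d 0 * S N d 0 := lt_of_lt_of_le (by nlinarith) h2
  have hd0 : 0 < d 0 := by
    rcases h0.lt_or_eq with h | h
    · exact h
    · rw [← h] at h4
      simp at h4
  have hS0 : 0 < S N d 0 := (pos_iff_pos_of_mul_pos h4).1 hd0
  have h5 : (1 - η) * (2 * N) ≤ S N d 0 := by
    have h6 : d 0 * (2 * N) * S N d 0 ≤ A N d * S N d 0 := mul_le_mul_of_nonneg_right h3 hS0.le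
    have h7 : (1 - η) * A N d * (2 * N) ≤ A N d * S N d 0 := by nlinarith
    have h8 : A N d * ((1 - η) * (2 * N)) ≤ A N d * S N d 0 := by linarith
    exact le_of_mul_le_mul_left h8 hA
  -- the set of nonpositive values
  obtain ⟨Z, hZ⟩ : ∃ Z : Finset ℕ, Z = (range (2 * N)).filter (fun j => G N d j ≤ 0) := ⟨_, rfl⟩
  have hZc : (Z.card : ℝ) ≤ 2 * N * η := by
    have h6 : S N d 0 = ∑ j ∈ range (2 * N), sg (G N d j) := by
      unfold S
      refine sum_congr rfl fun j _ => ?_
      unfold cc
      simp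
    have h7 : (Z.card : ℝ) ≤ ∑ j ∈ range (2 * N), (1 - sg (G N d j)) := by
      rw [hZ, ← nsmul_one, ← sum_const, sum_filter]
      refine sum_le_sum fun j _ => ?_
      have hle := (abs_le.1 (sg_abs (G N d j))).2
      split_ifs with h
      · have : sg (G N d j) ≤ 0 := by
          unfold sg
          rw [if_neg (by linarith)]
          split_ifs <;> norm_num
        linarith
      · linarith
    rw [sum_sub_distrib, ← h6] at h7
    simp only [sum_const, card_range, nsmul_eq_mul, mul_one] at h7
    push_cast at h7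
    nlinarith
  -- the sign `s`
  obtain ⟨s, hs1, hs2⟩ : ∃ s : ℝ, (s = 1 ∨ s = -1) ∧ s * d N = |d N| := by
    rcases le_total 0 (d N) with h | h
    · exact ⟨1, Or.inl rfl, by rw [one_mul, abs_of_nonneg h]⟩
    · exact ⟨-1, Or.inr rfl, by rw [abs_of_nonpos h]; ring⟩
  -- the weight and the function `h`
  obtain ⟨w, hw⟩ : ∃ w : ℕ → ℝ, w = fun j => 1 - s * cc N N j := ⟨_, rfl⟩
  have hcN : ∀ j, cc N N j = (-1) ^ j := by
    intro j
    unfold cc
    have : (N : ℝ) * (π * j / N) = j * π := by field_simp
    rw [this, cos_nat_mul_pi]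
  have hsN : ∀ j : ℕ, sin (N * (π * j / N)) = 0 := by
    intro j
    have : (N : ℝ) * (π * j / N) = j * π := by field_simp
    rw [this, sin_nat_mul_pi]
  have hw01 : ∀ j, 0 ≤ w j := by
    intro j
    rw [hw]
    have := abs_le.1 (cc_abs N N j)
    simp only
    rcases hs1 with h | h <;> rw [h] <;> linarith [this.1, this.2]
  obtain ⟨e, he⟩ : ∃ e : ℕ → ℝ, e = fun k => d k - s * d (N - k) := ⟨_, rfl⟩
  have hh : ∀ j, G N d j * w j = G N e j := by
    intro j
    have e1 : G N e j = G N d j - s * ∑ k ∈ range (N + 1), d (N - k) * cc N k j := by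
      unfold G
      rw [mul_sum, ← sum_sub_distrib]
      refine sum_congr rfl fun k _ => ?_
      rw [he]
      ring
    have e2 : ∑ k ∈ range (N + 1), d (N - k) * cc N k j = G N d j * cc N N j := by
      rw [← sum_range_reflect]
      unfold G
      rw [sum_mul]
      refine sum_congr rfl fun k hk => ?_
      rw [mem_range] at hk
      have h6 : N + 1 - 1 - k = N - k := by omega
      have h7 : N - (N - k) = k := by omega
      rw [h6, h7]
      have h8 : cc N (N - k) j = cc N k j * cc N N j := by
        have h9 : ((N - k : ℕ) : ℝ) = N - k := by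
          rw [Nat.cast_sub (by omega)]
        unfold cc
        rw [h9]
        have : ((N : ℝ) - k) * (π * j / N) = N * (π * j / N) - k * (π * j / N) := by ring
        rw [this, cos_sub, hsN]
        ring
      rw [h8]
      ring
    rw [e1, e2, hw]
    ring
  have he0 : e 0 ≤ 0 := by
    rw [he]
    simp only [Nat.sub_zero]
    linarith
  have hsum : ∑ j ∈ range (2 * N), G N e j ≤ 0 := by
    have := coef hN e (k := 0) (by omega)
    have h6 : ∀ j ∈ range (2 * N), G N e j * cc N 0 j = G N e j := by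
      intro j _
      unfold cc
      simp
    rw [sum_congr rfl h6] at this
    rw [this]
    have : 0 ≤ wt N 0 := le_trans hN'.le (wt_ge 0)
    exact mul_nonpos_of_nonpos_of_nonneg he0 this
  -- the maximum of `h`
  have hmax : ∀ j, |G N e j| ≤ 2 * M * (A N e / N) := by
    intro j
    obtain ⟨F, hF⟩ : ∃ F : Finset ℕ, F = (range (N + 1)).filter (fun q => d q ≠ 0) := ⟨_, rfl⟩
    have h6 : |G N e j| ≤ ∑ k ∈ range (N + 1), |e k| := by
      unfold G
      refine (abs_sum_le_sum_abs _ _).trans (sum_le_sum fun k _ => ?_)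
      rw [abs_mul]
      exact mul_le_of_le_one_right (abs_nonneg _) (cc_abs _ _ _)
    have h7 : ∑ k ∈ range (N + 1), |e k| ≤ ∑ k ∈ F ∪ F.image (fun q => N - q), |e k| := by
      have h8 : ∑ k ∈ range (N + 1), |e k| = ∑ k ∈ (range (N + 1)).filter (fun k => e k ≠ 0), |e k| := by
        rw [sum_filter]
        refine sum_congr rfl fun k _ => ?_
        split_ifs with h
        · rfl
        · push Not at h
          rw [h, abs_zero]
      rw [h8]
      refine sum_le_sum_of_subset_of_nonneg (fun k hk => ?_) fun _ _ _ => abs_nonneg _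
      rw [mem_filter, mem_range] at hk
      rw [mem_union]
      by_cases h9 : d k = 0
      · right
        rw [mem_image]
        refine ⟨N - k, ?_, by omega⟩
        rw [hF, mem_filter, mem_range]
        refine ⟨by omega, ?_⟩
        intro h10
        apply hk.2
        rw [he]
        simp only
        rw [h9, h10]
        ring
      · left
        rw [hF, mem_filter, mem_range]
        exact ⟨hk.1, h9⟩
    have h8 : ∀ k ∈ F ∪ F.image (fun q => N - q), |e k| ≤ A N e / N := by
      intro k hk
      have hkN : k ≤ N := by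
        rw [mem_union, mem_image] at hk
        rcases hk with hk | ⟨q, _, rfl⟩
        · rw [hF, mem_filter, mem_range] at hk
          omega
        · omega
      rw [le_div_iff₀ hN']
      exact coef_le' hN e hkN
    have h9 : ((F ∪ F.image (fun q => N - q)).card : ℝ) ≤ 2 * M := by
      have h10 : (F ∪ F.image (fun q => N - q)).card ≤ M + M := by
        refine (card_union_le _ _).trans (add_le_add ?_ (card_image_le.trans ?_))
        · rw [hF]; exact hM
        · rw [hF]; exact hM
      have : ((F ∪ F.image (fun q => N - q)).card : ℝ) ≤ ((M + M : ℕ) : ℝ) := by exact_mod_cast h10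
      push_cast at this
      linarith
    have h10 := sum_le_card_nsmul _ _ _ h8
    rw [nsmul_eq_mul] at h10
    have h11 : 0 ≤ A N e / N := div_nonneg (A_nonneg _ _) hN'.le
    calc |G N e j| ≤ _ := h6
      _ ≤ _ := h7
      _ ≤ _ := h10
      _ ≤ _ := mul_le_mul_of_nonneg_right h9 h11
  -- `B ≤ 8 M η B`
  have hB : A N e ≤ 8 * M * η * A N e := by
    have h6 : A N e ≤ ∑ j ∈ range (2 * N), G N e j + 2 * ∑ j ∈ Z, |G N e j| := by
      unfold A
      rw [hZ, sum_filter, mul_sum, ← sum_add_distrib]
      refine sum_le_sum fun j _ => ?_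
      split_ifs with h
      · have := neg_abs_le (G N e j)
        linarith
      · push Not at h
        have : 0 ≤ G N e j := by
          rw [← hh]
          exact mul_nonneg h.le (hw01 j)
        rw [abs_of_nonneg this]
        linarith
    have h7 : ∑ j ∈ Z, |G N e j| ≤ Z.card * (2 * M * (A N e / N)) := by
      have := sum_le_card_nsmul Z (fun j => |G N e j|) _ (fun j _ => hmax j)
      rwa [nsmul_eq_mul] at this
    have h8 : (Z.card : ℝ) * (2 * M * (A N e / N)) ≤ 2 * N * η * (2 * M * (A N e / N)) := by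
      refine mul_le_mul_of_nonneg_right hZc ?_
      have : 0 ≤ A N e / N := div_nonneg (A_nonneg _ _) hN'.le
      positivity
    have h9 : 2 * N * η * (2 * M * (A N e / N)) = 4 * M * η * A N e := by
      field_simp
      ring
    linarith
  have hBz : A N e = 0 := by
    by_contra hne'
    have hpos : 0 < A N e := lt_of_le_of_ne (A_nonneg _ _) (Ne.symm hne')
    nlinarith
  -- half of the comb consists of zeros
  have hzero : ∀ j ∈ range (2 * N), G N e j = 0 := by
    unfold A at hBz
    rw [sum_eq_zero_iff_of_nonneg (fun _ _ => abs_nonneg _)] at hBz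
    intro j hj
    exact abs_eq_zero.1 (hBz j hj)
  have hcard : (N : ℝ) ≤ Z.card := by
    have : ∃ r : ℕ, r < 2 ∧ ∀ i, w (2 * i + r) = 2 := by
      rcases hs1 with h | h
      · refine ⟨1, by norm_num, fun i => ?_⟩
        rw [hw]
        simp only
        rw [hcN, h, pow_add, pow_mul]
        norm_num
      · refine ⟨0, by norm_num, fun i => ?_⟩
        rw [hw]
        simp only
        rw [hcN, h, pow_add, pow_mul]
        norm_num
    obtain ⟨r, hr1, hr2⟩ := this
    have hsub : (range N).image (fun i => 2 * i + r) ⊆ Z := by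
      intro j hj
      rw [mem_image] at hj
      obtain ⟨i, hi, rfl⟩ := hj
      rw [mem_range] at hi
      rw [hZ, mem_filter, mem_range]
      have hlt : 2 * i + r < 2 * N := by omega
      refine ⟨hlt, ?_⟩
      have := hzero (2 * i + r) (by rw [mem_range]; exact hlt)
      rw [← hh, hr2] at this
      linarith
    have h6 := card_le_card hsub
    rw [card_image_of_injective _ (fun a b hab => by simpa using hab), card_range] at h6
    exact_mod_cast h6
  nlinarith

end Pool.Agent.Q80.ND
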