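import Pool.Agent.Q80.ND.N2

set_option autoImplicit false

namespace Pool.Agent.Q80.ND

open Finset Real

lemma G_neg (N : ℕ) (d : ℕ → ℝ) (j : ℕ) : G N (fun q => -d q) j = -G N d j := by
  unfold G
  rw [← sum_neg_distrib]
  refine sum_congr rfl fun q _ => ?_
  ring

lemma TV_neg (N : ℕ) (d : ℕ → ℝ) : TV N (fun q => -d q) = TV N d := by
  unfold TV
  refine sum_congr rfl fun j _ => ?_
  rw [G_neg, G_neg, sg_neg, sg_neg, ← abs_neg]
  congr 1
  ring

/-- the total variation of the signs of a cosine polynomial on the comb -/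
theorem comb {N L M : ℕ} (hN : 0 < N) (hL : 0 < L) (hLN : L ≤ N) (d : ℕ → ℝ) (p : ℕ) (hp : p ≤ N)
    (h1 : ∀ q ≤ N, q ≠ p → d q ≠ 0 → L ≤ q)
    (hM : ((range (N + 1)).filter (fun q => d q ≠ 0)).card ≤ M)
    (hab : |d p| ≤ |d N|) (hne : ∃ q ≤ N, d q ≠ 0) :
    (L : ℝ) ≤ 8 * M ^ 2 * (1 + TV N d) := by
  by_contra hcon
  push Not at hcon
  have hL' : (0 : ℝ) < L := by exact_mod_cast hL
  have hN' : (0 : ℝ) < N := by exact_mod_cast hN
  have hM1 : 1 ≤ M := by
    obtain ⟨q, hq, hd⟩ := hne
    refine le_trans (card_pos.2 ⟨q, ?_⟩) hM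
    rw [mem_filter, mem_range]
    exact ⟨by omega, hd⟩
  have hM1' : (1 : ℝ) ≤ M := by exact_mod_cast hM1
  have hT := TV_nonneg N d
  have hA := A_pos hN d hne
  obtain ⟨η, hηd⟩ : ∃ η : ℝ, η = M * (1 + TV N d) / L := ⟨_, rfl⟩
  have hη0 : 0 ≤ η := by rw [hηd]; positivity
  have hη : 8 * M * η < 1 := by
    rw [hηd]
    have : 8 * (M : ℝ) * (M * (1 + TV N d) / L) = 8 * M ^ 2 * (1 + TV N d) / L := by ring
    rw [this, div_lt_one hL']
    exact hcon
  have hη8 : 8 * η < 1 := by nlinarith
  by_cases hpL : L ≤ p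
  · -- all frequencies are at least `L`
    have hr := rest hN hL d (N + 1) (fun q hq _ hd => by
      by_cases h : q = p
      · rw [h]; exact hpL
      · exact h1 q hq h hd) hM
    rw [erase_eq_of_notMem (by simp), ← A_eq, abs_of_pos hA, ← hηd] at hr
    nlinarith
  · push Not at hpL
    have hpN : p < N := lt_of_lt_of_le hpL hLN
    rcases Nat.eq_zero_or_pos p with hp0 | hp0
    · subst hp0
      rcases le_total 0 (d 0) with h0 | h0
      · exact case_zero hN hL d h1 hM h0 (by rwa [abs_of_nonneg h0] at hab) hne hM1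
          (by rw [← hηd]; exact hη)
      · refine case_zero hN hL (fun q => -d q) (fun q hq hq0 hd => h1 q hq hq0 (by simpa using hd))
          (M := M) ?_ (by linarith) ?_ ?_ hM1 (by rw [TV_neg, ← hηd]; exact hη)
        · simpa using hM
        · rw [abs_of_nonpos h0] at hab
          simpa using hab
        · obtain ⟨q, hq, hd⟩ := hne
          exact ⟨q, hq, by simpa using hd⟩
    · -- `0 < p < L`
      have hr := rest hN hL d p h1 hM
      rw [← hηd] at hr
      have hA2 := A_eq N d
      rw [← add_sum_erase (range (N + 1)) _ (by rw [mem_range]; omega : p ∈ range (N + 1))] at hA2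
      have hr2 := (abs_le.1 hr).2
      have h2 : (1 - η) * A N d ≤ |d p| * |S N d p| := by
        rw [← abs_mul]
        have := le_abs_self (d p * S N d p)
        nlinarith
      have h3 : |d p| * (2 * N) ≤ A N d := by
        have := coef_le hN d (k := N) le_rfl
        unfold wt at this
        rw [if_pos (Or.inr rfl)] at this
        exact le_trans (mul_le_mul_of_nonneg_right hab (by positivity)) this
      -- `(∑ |cos|)² ≤ 2N · N`
      have h4 : |S N d p| ^ 2 ≤ 2 * N * N := by
        have h5 : |S N d p| ≤ ∑ j ∈ range (2 * N), |cc N p j| := by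
          unfold S
          refine (abs_sum_le_sum_abs _ _).trans (sum_le_sum fun j _ => ?_)
          rw [abs_mul]
          exact mul_le_of_le_one_left (abs_nonneg _) (sg_abs _)
        have h6 : (∑ j ∈ range (2 * N), |cc N p j|) ^ 2 ≤
            (range (2 * N)).card * ∑ j ∈ range (2 * N), |cc N p j| ^ 2 :=
          sq_sum_le_card_mul_sum_sq
        have h7 : ∑ j ∈ range (2 * N), |cc N p j| ^ 2 = N := by
          have := orth hN hpN.le hpN.le
          rw [if_pos rfl] at this
          unfold wt at this
          rw [if_neg (by omega)] at this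
          rw [← this]
          refine sum_congr rfl fun j _ => ?_
          rw [sq_abs]
          ring
        rw [h7, card_range] at h6
        push_cast at h6
        exact le_trans (pow_le_pow_left₀ (abs_nonneg _) h5 2) h6
      have h8 : |S N d p| ≤ 3 / 2 * N := by
        refine abs_le_of_sq_le_sq' ?_ (by positivity) |>.2
        nlinarith
      have h9 : (1 - η) * A N d * (2 * N) ≤ A N d * (3 / 2 * N) := by
        calc (1 - η) * A N d * (2 * N) ≤ |d p| * |S N d p| * (2 * N) :=
              mul_le_mul_of_nonneg_right h2 (by positivity)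
          _ = |d p| * (2 * N) * |S N d p| := by ring
          _ ≤ A N d * (3 / 2 * N) := mul_le_mul h3 h8 (abs_nonneg _) hA.le
      have h10 : 0 < A N d * N := by positivity
      nlinarith

end Pool.Agent.Q80.ND
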