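import Pool.Agent.Q80.ND.N3

set_option autoImplicit false

namespace Pool.Agent.Q80.ND

open Finset Real

lemma changes (χ : ℕ → Bool) (n : ℕ) : ∃ t : ℕ → ℕ,
    (∀ i < ((range n).filter (fun j => χ j ≠ χ (j + 1))).card, t i < t (i + 1)) ∧
    t ((range n).filter (fun j => χ j ≠ χ (j + 1))).card ≤ n ∧
    χ (t ((range n).filter (fun j => χ j ≠ χ (j + 1))).card) = χ n ∧
    ∀ i < ((range n).filter (fun j => χ j ≠ χ (j + 1))).card, χ (t i) ≠ χ (t (i + 1)) := by
  induction n with
  | zero => exact ⟨fun _ => 0, by simp, by simp, by simp, by simp⟩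
  | succ n ih =>
    obtain ⟨t, h1, h2, h3, h4⟩ := ih
    by_cases h : χ n = χ (n + 1)
    · have e : (range (n + 1)).filter (fun j => χ j ≠ χ (j + 1)) =
          (range n).filter (fun j => χ j ≠ χ (j + 1)) := by
        rw [range_add_one, filter_insert, if_neg (by simpa using h)]
      rw [e]
      exact ⟨t, h1, by omega, by rw [h3, h], h4⟩
    · have e : ((range (n + 1)).filter (fun j => χ j ≠ χ (j + 1))).card =
          ((range n).filter (fun j => χ j ≠ χ (j + 1))).card + 1 := by
        rw [range_add_one, filter_insert, if_pos h, card_insert_of_notMem (by simp)]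
      rw [e]
      obtain ⟨K, hK⟩ : ∃ K, K = ((range n).filter (fun j => χ j ≠ χ (j + 1))).card := ⟨_, rfl⟩
      rw [← hK] at h1 h2 h3 h4 ⊢
      refine ⟨fun i => if i ≤ K then t i else n + 1, ?_, ?_, ?_, ?_⟩
      · intro i hi
        simp only
        rw [if_pos (by omega : i ≤ K)]
        by_cases hiK : i < K
        · rw [if_pos (by omega)]
          exact h1 i hiK
        · have : i = K := by omega
          subst this
          rw [if_neg (by omega)]
          omega
      · simp
      · simp
      · intro i hi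
        simp only
        rw [if_pos (by omega : i ≤ K)]
        by_cases hiK : i < K
        · rw [if_pos (by omega)]
          exact h4 i hiK
        · have : i = K := by omega
          subst this
          rw [if_neg (by omega), h3]
          exact h

lemma changes' (χ : ℕ → Bool) (n m : ℕ)
    (hm : 2 * m ≤ ((range n).filter (fun j => χ j ≠ χ (j + 1))).card) : ∃ t : ℕ → ℕ,
    (∀ i, i + 1 < 2 * m → t i < t (i + 1)) ∧ (∀ i < 2 * m, t i ≤ n) ∧
    ∀ i < 2 * m, χ (t i) = decide (Even i) := by
  obtain ⟨t, h1, h2, h3, h4⟩ := changes χ n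
  obtain ⟨K, hK⟩ : ∃ K, K = ((range n).filter (fun j => χ j ≠ χ (j + 1))).card := ⟨_, rfl⟩
  rw [← hK] at h1 h2 h3 h4 hm
  have hle : ∀ i, i ≤ K → t (K - i) ≤ n := by
    intro i
    induction i with
    | zero => intro _; simpa using h2
    | succ i ih =>
      intro hi
      have := h1 (K - (i + 1)) (by omega)
      have e : K - (i + 1) + 1 = K - i := by omega
      rw [e] at this
      have := ih (by omega)
      omega
  have hle' : ∀ i ≤ K, t i ≤ n := by
    intro i hi
    have := hle (K - i) (by omega)
    have e : K - (K - i) = i := by omega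
    rwa [e] at this
  rcases hχ : χ (t 0) with _ | _
  · -- start with index one
    refine ⟨fun i => t (i + 1), fun i hi => h1 (i + 1) (by omega), fun i hi => hle' _ (by omega), ?_⟩
    intro i
    induction i with
    | zero =>
      intro hi
      have := h4 0 (by omega)
      rw [hχ] at this
      simpa using this.symm
    | succ i ih =>
      intro hi
      have h5 := h4 (i + 1) (by omega)
      simp only at ih ⊢
      rw [ih (by omega)] at h5
      by_cases he : Even i
      · have : ¬ Even (i + 1) := by
          rw [Nat.even_add_one]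
          simpa using he
        simp only [he, decide_true, this, decide_false] at h5 ⊢
        simpa using h5.symm
      · have : Even (i + 1) := by
          rw [Nat.even_add_one]
          exact he
        simp only [he, decide_false, this, decide_true] at h5 ⊢
        simpa using h5.symm
  · refine ⟨t, fun i hi => h1 i (by omega), fun i hi => hle' _ (by omega), ?_⟩
    intro i
    induction i with
    | zero =>
      intro hi
      simpa using hχ
    | succ i ih =>
      intro hi
      have h5 := h4 i (by omega)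
      rw [ih (by omega)] at h5
      by_cases he : Even i
      · have : ¬ Even (i + 1) := by
          rw [Nat.even_add_one]
          simpa using he
        simp only [he, decide_true, this, decide_false] at h5 ⊢
        simpa using h5.symm
      · have : Even (i + 1) := by
          rw [Nat.even_add_one]
          exact he
        simp only [he, decide_false, this, decide_true] at h5 ⊢
        simpa using h5.symm

lemma G_refl {N : ℕ} (hN : 0 < N) (d : ℕ → ℝ) {j : ℕ} (hj : j ≤ 2 * N) :
    G N d (2 * N - j) = G N d j := by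
  have hN' : (N : ℝ) ≠ 0 := by positivity
  unfold G
  refine sum_congr rfl fun q _ => ?_
  congr 1
  unfold cc
  rw [Nat.cast_sub hj]
  have : (q : ℝ) * (π * (((2 * N : ℕ) : ℝ) - j) / N) = q * (2 * π) - q * (π * j / N) := by
    push_cast
    field_simp
  rw [this, cos_nat_mul_two_pi_sub]

lemma sg_sub (x y : ℝ) : |sg x - sg y| ≤ (if decide (0 < x) ≠ decide (0 < y) then 1 else 0) +
    (if decide (0 < -x) ≠ decide (0 < -y) then 1 else 0) := by
  unfold sg
  rcases lt_trichotomy x 0 with hx | hx | hx <;> rcases lt_trichotomy y 0 with hy | hy | hy <;>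
    simp [hx, hy, hx.le, hy.le, not_lt.2 hx.le, not_lt.2 hy.le] <;> norm_num

theorem alt {N : ℕ} (hN : 0 < N) (d : ℕ → ℝ) (m : ℕ) (hm0 : 0 < m) (hm : 8 * m + 8 ≤ TV N d) :
    ∃ s : ℝ, (s = 1 ∨ s = -1) ∧ ∃ t : ℕ → ℕ, (∀ i < 2 * m, 0 < t i ∧ t i < N) ∧
      (∀ i, i + 1 < 2 * m → t i < t (i + 1)) ∧
      ∀ i < 2 * m, (Even i → 0 < s * G N d (t i)) ∧ (¬ Even i → s * G N d (t i) ≤ 0) := by
  obtain ⟨f, hf⟩ : ∃ f : ℕ → ℝ, f = fun j => |sg (G N d (j + 1)) - sg (G N d j)| := ⟨_, rfl⟩
  have hf2 : ∀ j, f j ≤ 2 := by
    intro j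
    rw [hf]
    have h1 := abs_le.1 (sg_abs (G N d (j + 1)))
    have h2 := abs_le.1 (sg_abs (G N d j))
    exact abs_le.2 ⟨by linarith [h1.1, h2.2], by linarith [h1.2, h2.1]⟩
  have h1 : TV N d = 2 * ∑ j ∈ range N, f j := by
    unfold TV
    rw [two_mul N, sum_range_add]
    have h2 : ∑ x ∈ range N, |sg (G N d (N + x + 1)) - sg (G N d (N + x))| = ∑ j ∈ range N, f j := by
      rw [← sum_range_reflect]
      refine sum_congr rfl fun j hj => ?_
      rw [mem_range] at hj
      rw [hf]
      simp only
      have e1 : N + (N - 1 - j) + 1 = 2 * N - j := by omega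
      have e2 : N + (N - 1 - j) = 2 * N - (j + 1) := by omega
      rw [e1, e2, G_refl hN d (by omega), G_refl hN d (by omega), abs_sub_comm]
    rw [h2, hf]
    ring
  have hm' : (1 : ℝ) ≤ m := by exact_mod_cast hm0
  have hN2 : 2 ≤ N := by
    by_contra hcon
    have : N = 1 := by omega
    subst this
    rw [h1] at hm
    simp only [range_one, sum_singleton] at hm
    have := hf2 0
    linarith
  obtain ⟨n, rfl⟩ : ∃ n, N = n + 2 := ⟨N - 2, by omega⟩
  have h2 : ∑ j ∈ range (n + 2), f j ≤ 4 + ∑ j ∈ range n, f (j + 1) := by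
    rw [sum_range_succ, sum_range_succ']
    have := hf2 0
    have := hf2 (n + 1)
    linarith
  -- the two indicator sequences
  obtain ⟨χ, hχ⟩ : ∃ χ : ℝ → ℕ → Bool, χ = fun s j => decide (0 < s * G (n + 2) d (j + 1)) := ⟨_, rfl⟩
  have h3 : ∑ j ∈ range n, f (j + 1) ≤
      ((range n).filter (fun j => χ 1 j ≠ χ 1 (j + 1))).card +
      ((range n).filter (fun j => χ (-1) j ≠ χ (-1) (j + 1))).card := by
    rw [card_filter, card_filter]
    push_cast
    rw [← sum_add_distrib]
    refine sum_le_sum fun j _ => ?_
    rw [hf, hχ]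
    simp only [one_mul, neg_mul]
    rw [abs_sub_comm]
    exact sg_sub _ _
  have h4 : ∃ s : ℝ, (s = 1 ∨ s = -1) ∧
      2 * m ≤ ((range n).filter (fun j => χ s j ≠ χ s (j + 1))).card := by
    by_contra hcon
    push Not at hcon
    have h5 := hcon 1 (Or.inl rfl)
    have h6 := hcon (-1) (Or.inr rfl)
    have h7 : ((((range n).filter (fun j => χ 1 j ≠ χ 1 (j + 1))).card : ℕ) : ℝ) < 2 * m := by
      exact_mod_cast h5
    have h8 : ((((range n).filter (fun j => χ (-1) j ≠ χ (-1) (j + 1))).card : ℕ) : ℝ) < 2 * m := by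
      exact_mod_cast h6
    linarith
  obtain ⟨s, hs, h5⟩ := h4
  obtain ⟨t, t1, t2, t3⟩ := changes' (χ s) n m h5
  refine ⟨s, hs, fun i => t i + 1, fun i hi => ⟨by dsimp only; omega, by have := t2 i hi; dsimp only; omega⟩,
    fun i hi => by have := t1 i hi; dsimp only; omega, fun i hi => ?_⟩
  have h6 := t3 i hi
  rw [hχ] at h6
  simp only [decide_eq_decide] at h6
  exact ⟨fun h => h6.2 h, fun h => by
    by_contra hcon
    push Not at hcon
    exact h (h6.1 hcon)⟩

end Pool.Agent.Q80.ND
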