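import Mathlib

set_option autoImplicit false

namespace Pool.Agent.Q80.ND

open Real MeasureTheory intervalIntegral

/-- the circular mean of a plane wave, up to the factor `1 / (2 π)` -/
noncomputable def Kc (t : ℝ) : ℝ := ∫ θ in (0 : ℝ)..(2 * π), cos (t * cos θ)

lemma shift_int (f : ℝ → ℝ) (hf : Function.Periodic f (2 * π)) (φ : ℝ) :
    ∫ θ in (0 : ℝ)..(2 * π), f (θ + φ) = ∫ θ in (0 : ℝ)..(2 * π), f θ := by
  rw [intervalIntegral.integral_comp_add_right f φ]
  have := hf.intervalIntegral_add_eq (0 + φ) 0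
  rw [zero_add] at this ⊢
  rw [zero_add] at this
  rw [add_comm (2 * π) φ]
  exact this

lemma sin_int (t : ℝ) : ∫ θ in (0 : ℝ)..(2 * π), sin (t * cos θ) = 0 := by
  have h1 : Function.Periodic (fun θ : ℝ => sin (t * cos θ)) (2 * π) := by
    intro θ
    simp only [cos_add_two_pi]
  have h2 := shift_int _ h1 π
  have h3 : ∀ θ : ℝ, sin (t * cos (θ + π)) = -sin (t * cos θ) := by
    intro θ
    rw [cos_add_pi, mul_neg, sin_neg]
  simp only [h3] at h2
  rw [intervalIntegral.integral_neg] at h2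
  linarith

lemma wave_int (t c φ : ℝ) : ∫ θ in (0 : ℝ)..(2 * π), cos (c + t * cos (θ + φ)) = cos c * Kc t := by
  have h1 : Function.Periodic (fun θ : ℝ => cos (c + t * cos θ)) (2 * π) := by
    intro θ
    simp only [cos_add_two_pi]
  have h2 := shift_int _ h1 φ
  rw [h2]
  have h3 : ∀ θ : ℝ, cos (c + t * cos θ) = cos c * cos (t * cos θ) - sin c * sin (t * cos θ) :=
    fun θ => cos_add _ _
  simp only [h3]
  rw [intervalIntegral.integral_sub, intervalIntegral.integral_const_mul,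
    intervalIntegral.integral_const_mul, sin_int]
  · unfold Kc
    ring
  · exact (by fun_prop : Continuous fun θ : ℝ => cos c * cos (t * cos θ)).intervalIntegrable _ _
  · exact (by fun_prop : Continuous fun θ : ℝ => sin c * sin (t * cos θ)).intervalIntegrable _ _

lemma mv_basis (p q : ℕ) (x y ρ : ℝ) :
    ∫ θ in (0 : ℝ)..(2 * π), cos (p * (x + ρ * cos θ)) * cos (q * (y + ρ * sin θ)) =
      Kc (ρ * √((p : ℝ) ^ 2 + (q : ℝ) ^ 2)) * (cos (p * x) * cos (q * y)) := by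
  obtain ⟨φ, hp, hq⟩ : ∃ φ : ℝ, (p : ℝ) = √((p : ℝ) ^ 2 + (q : ℝ) ^ 2) * cos φ ∧
      (q : ℝ) = √((p : ℝ) ^ 2 + (q : ℝ) ^ 2) * sin φ := by
    refine ⟨Complex.arg (⟨p, q⟩ : ℂ), ?_, ?_⟩
    · have := Complex.norm_mul_cos_arg (⟨p, q⟩ : ℂ)
      rw [Complex.norm_eq_sqrt_sq_add_sq] at this
      exact this.symm
    · have := Complex.norm_mul_sin_arg (⟨p, q⟩ : ℂ)
      rw [Complex.norm_eq_sqrt_sq_add_sq] at this
      exact this.symm
  obtain ⟨R, hR⟩ : ∃ R : ℝ, R = √((p : ℝ) ^ 2 + (q : ℝ) ^ 2) := ⟨_, rfl⟩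
  rw [← hR] at hp hq ⊢
  have h1 : ∀ θ : ℝ, cos (p * (x + ρ * cos θ)) * cos (q * (y + ρ * sin θ)) =
      1 / 2 * cos ((p * x + q * y) + ρ * R * cos (θ + -φ)) +
      1 / 2 * cos ((p * x - q * y) + ρ * R * cos (θ + φ)) := by
    intro θ
    have e1 : (p * x + q * y) + ρ * R * cos (θ + -φ) =
        p * (x + ρ * cos θ) + q * (y + ρ * sin θ) := by
      rw [cos_add, cos_neg, sin_neg]
      linear_combination (-ρ * cos θ) * hp + (-ρ * sin θ) * hq
    have e2 : (p * x - q * y) + ρ * R * cos (θ + φ) =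
        p * (x + ρ * cos θ) - q * (y + ρ * sin θ) := by
      rw [cos_add]
      linear_combination (-ρ * cos θ) * hp + (ρ * sin θ) * hq
    rw [e1, e2, cos_add (p * (x + ρ * cos θ)), cos_sub (p * (x + ρ * cos θ))]
    ring
  simp only [h1]
  rw [intervalIntegral.integral_add, intervalIntegral.integral_const_mul,
    intervalIntegral.integral_const_mul, wave_int, wave_int, cos_add, cos_sub]
  · ring
  · exact (by fun_prop : Continuous fun θ : ℝ =>
      1 / 2 * cos ((p * x + q * y) + ρ * R * cos (θ + -φ))).intervalIntegrable _ _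
  · exact (by fun_prop : Continuous fun θ : ℝ =>
      1 / 2 * cos ((p * x - q * y) + ρ * R * cos (θ + φ))).intervalIntegrable _ _

/-- a combination of the functions `cos (p x) cos (q y)` -/
noncomputable def U (n : ℕ) (c : ℕ → ℕ → ℝ) (z : ℝ × ℝ) : ℝ :=
  ∑ p ∈ Finset.range (n + 1), ∑ q ∈ Finset.range (n + 1), c p q * (cos (p * z.1) * cos (q * z.2))

lemma U_cont (n : ℕ) (c : ℕ → ℕ → ℝ) : Continuous (U n c) := by
  unfold U
  fun_prop

/-- the mean value property of eigenfunctions -/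
lemma mean_value (n : ℕ) (c : ℕ → ℕ → ℝ) (hc : ∀ p q, c p q ≠ 0 → p ^ 2 + q ^ 2 = n) (z : ℝ × ℝ)
    (ρ : ℝ) : ∫ θ in (0 : ℝ)..(2 * π), U n c (z.1 + ρ * cos θ, z.2 + ρ * sin θ) =
      Kc (ρ * √(n : ℝ)) * U n c z := by
  unfold U
  simp only
  rw [intervalIntegral.integral_finsetSum]
  · rw [Finset.mul_sum]
    refine Finset.sum_congr rfl fun p _ => ?_
    rw [intervalIntegral.integral_finsetSum]
    · rw [Finset.mul_sum]
      refine Finset.sum_congr rfl fun q _ => ?_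
      rw [intervalIntegral.integral_const_mul, mv_basis]
      by_cases h : c p q = 0
      · rw [h]
        ring
      · have h1 : ((p : ℝ) ^ 2 + (q : ℝ) ^ 2) = n := by exact_mod_cast hc p q h
        rw [h1]
        ring
    · intro q _
      exact (by fun_prop : Continuous fun θ : ℝ => c p q *
        (cos (p * (z.1 + ρ * cos θ)) * cos (q * (z.2 + ρ * sin θ)))).intervalIntegrable _ _
  · intro p _
    exact (by fun_prop : Continuous fun θ : ℝ => ∑ q ∈ Finset.range (n + 1), c p q *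
        (cos (p * (z.1 + ρ * cos θ)) * cos (q * (z.2 + ρ * sin θ)))).intervalIntegrable _ _

/-- an eigenfunction which is nonnegative on a circle around one of its zeros vanishes there -/
lemma zero_circle (n : ℕ) (c : ℕ → ℕ → ℝ) (hc : ∀ p q, c p q ≠ 0 → p ^ 2 + q ^ 2 = n) (z : ℝ × ℝ)
    (hz : U n c z = 0) (ρ : ℝ) (hρ : ∀ θ : ℝ, 0 ≤ U n c (z.1 + ρ * cos θ, z.2 + ρ * sin θ)) (θ : ℝ)
    (hθ : θ ∈ Set.Ico 0 (2 * π)) : U n c (z.1 + ρ * cos θ, z.2 + ρ * sin θ) = 0 := by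
  have h1 := mean_value n c hc z ρ
  rw [hz, mul_zero] at h1
  have hcont : Continuous fun θ : ℝ => U n c (z.1 + ρ * cos θ, z.2 + ρ * sin θ) :=
    (U_cont n c).comp (by fun_prop)
  by_contra hne
  have hpos : 0 < U n c (z.1 + ρ * cos θ, z.2 + ρ * sin θ) := lt_of_le_of_ne (hρ θ) (Ne.symm hne)
  have h2 : 0 < ∫ θ in (0 : ℝ)..(2 * π), U n c (z.1 + ρ * cos θ, z.2 + ρ * sin θ) := by
    refine intervalIntegral.integral_pos (by positivity) hcont.continuousOn (fun t _ => hρ t)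
      ⟨θ, ⟨hθ.1, hθ.2.le⟩, hpos⟩
  linarith

end Pool.Agent.Q80.ND
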