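import Mathlib
import Pool.Agent.H207R2.BL.Cross

set_option autoImplicit false

namespace Pool.Agent.Q80.ND

open Set Metric Topology

/-- the connected components of the set `W` of the plane -/
def comps (W : Set (ℝ × ℝ)) : Set (Set (ℝ × ℝ)) := {D | ∃ z ∈ W, D = connectedComponentIn W z}

lemma comps_eq {W D D' : Set (ℝ × ℝ)} (hD : D ∈ comps W) (hD' : D' ∈ comps W) {z : ℝ × ℝ}
    (h : z ∈ D) (h' : z ∈ D') : D = D' := by
  obtain ⟨x, hx, rfl⟩ := hD
  obtain ⟨y, hy, rfl⟩ := hD'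
  rw [connectedComponentIn_eq h, connectedComponentIn_eq h']

lemma comps_disj {W D D' : Set (ℝ × ℝ)} (hD : D ∈ comps W) (hD' : D' ∈ comps W) (h : D ≠ D') :
    Disjoint D D' := by
  rw [Set.disjoint_left]
  intro z hz hz'
  exact h (comps_eq hD hD' hz hz')

lemma comps_conn {W D : Set (ℝ × ℝ)} (hD : D ∈ comps W) : IsConnected D := by
  obtain ⟨x, hx, rfl⟩ := hD
  exact ⟨⟨x, mem_connectedComponentIn hx⟩, isPreconnected_connectedComponentIn⟩

lemma comps_open {W D : Set (ℝ × ℝ)} (hW : IsOpen W) (hD : D ∈ comps W) : IsOpen D := by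
  obtain ⟨x, hx, rfl⟩ := hD
  exact hW.connectedComponentIn

lemma comps_sub {W D : Set (ℝ × ℝ)} (hD : D ∈ comps W) : D ⊆ W := by
  obtain ⟨x, hx, rfl⟩ := hD
  exact connectedComponentIn_subset _ _

/-- Crossing: two disjoint domains in the upper half plane do not touch the real line in an
interlaced way. -/
lemma nocross (φ : (ℝ × ℝ) →L[ℝ] ℂ) (hinj : Function.Injective φ) {A B : Set (ℝ × ℝ)}
    (hA : IsOpen A) (hAc : IsConnected A) (hAi : ∀ z ∈ A, 0 < (φ z).im)
    (hB : IsOpen B) (hBc : IsConnected B) (hBi : ∀ z ∈ B, 0 < (φ z).im) (hAB : Disjoint A B)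
    (b1 b2 b3 b4 : ℝ × ℝ) (i1 : (φ b1).im = 0) (i2 : (φ b2).im = 0) (i3 : (φ b3).im = 0)
    (i4 : (φ b4).im = 0) (r12 : (φ b1).re < (φ b2).re) (r23 : (φ b2).re < (φ b3).re)
    (r34 : (φ b3).re < (φ b4).re)
    (h1 : ∃ z ∈ A, ∀ t ∈ Ioc (0 : ℝ) 1, AffineMap.lineMap b1 z t ∈ A)
    (h3 : ∃ z ∈ A, ∀ t ∈ Ioc (0 : ℝ) 1, AffineMap.lineMap b3 z t ∈ A)
    (h2 : b2 ∈ closure B) (h4 : b4 ∈ closure B) : False := by
  obtain ⟨z1, hz1, l1⟩ := h1
  obtain ⟨z3, hz3, l3⟩ := h3
  have hAp := hA.isConnected_iff_isPathConnected.1 hAc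
  have hBp := hB.isConnected_iff_isPathConnected.1 hBc
  -- the path in `A`
  have line : ∀ (b z : ℝ × ℝ) (T : Set (ℝ × ℝ)), (∀ t ∈ Icc (0 : ℝ) 1, AffineMap.lineMap b z t ∈ T) →
      JoinedIn T b z := by
    intro b z T hT
    refine JoinedIn.ofLine (f := fun t : ℝ => AffineMap.lineMap b z t) ?_ (by simp) (by simp) ?_
    · exact (AffineMap.lineMap_continuous).continuousOn
    · rintro x ⟨t, ht, rfl⟩
      exact hT t ht
  obtain ⟨TA, hTA⟩ : ∃ TA : Set (ℝ × ℝ), TA = A ∪ {b1, b3} := ⟨_, rfl⟩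
  have sA : A ⊆ TA := by rw [hTA]; exact subset_union_left
  have J1 : JoinedIn TA b1 z1 := by
    refine line _ _ _ fun t ht => ?_
    rcases ht.1.lt_or_eq with h | h
    · exact sA (l1 t ⟨h, ht.2⟩)
    · rw [← h]
      simp [hTA]
  have J3 : JoinedIn TA b3 z3 := by
    refine line _ _ _ fun t ht => ?_
    rcases ht.1.lt_or_eq with h | h
    · exact sA (l3 t ⟨h, ht.2⟩)
    · rw [← h]
      simp [hTA]
  have J : JoinedIn TA b1 b3 := (J1.trans ((hAp.joinedIn z1 hz1 z3 hz3).mono sA)).trans J3.symm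
  obtain ⟨α, hα⟩ := J
  obtain ⟨K, hK⟩ : ∃ K : Set (ℝ × ℝ), K = range α := ⟨_, rfl⟩
  have hKc : IsCompact K := by
    rw [hK]
    exact isCompact_range α.continuous
  have hKT : K ⊆ TA := by
    rw [hK]
    rintro _ ⟨t, rfl⟩
    exact hα t
  have hTAi : ∀ z ∈ TA, 0 ≤ (φ z).im := by
    intro z hz
    rw [hTA] at hz
    rcases hz with hz | hz | hz
    · exact (hAi z hz).le
    · rw [hz, i1]
    · rw [mem_singleton_iff] at hz
      rw [hz, i3]
  have out : ∀ b : ℝ × ℝ, (φ b).im = 0 → (φ b).re ≠ (φ b1).re → (φ b).re ≠ (φ b3).re → b ∉ K := by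
    intro b hb n1 n3 hbK
    have := hKT hbK
    rw [hTA] at this
    rcases this with h | h | h
    · have := hAi b h
      rw [hb] at this
      exact lt_irrefl _ this
    · exact n1 (by rw [h])
    · rw [mem_singleton_iff] at h
      exact n3 (by rw [h])
  have o2 := out b2 i2 r12.ne' r23.ne
  have o4 := out b4 i4 (by linarith) r34.ne'
  have hKo : IsOpen Kᶜ := hKc.isClosed.isOpen_compl
  obtain ⟨TB, hTB⟩ : ∃ TB : Set (ℝ × ℝ), TB = {z | 0 ≤ (φ z).im ∧ z ∉ K} := ⟨_, rfl⟩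
  have sB : B ⊆ TB := by
    intro z hz
    rw [hTB]
    refine ⟨(hBi z hz).le, fun hzK => ?_⟩
    have := hKT hzK
    rw [hTA] at this
    rcases this with h | h | h
    · exact Set.disjoint_left.1 hAB h hz
    · have := hBi z hz
      rw [h, i1] at this
      exact lt_irrefl _ this
    · rw [mem_singleton_iff] at h
      have := hBi z hz
      rw [h, i3] at this
      exact lt_irrefl _ this
  have near : ∀ b : ℝ × ℝ, (φ b).im = 0 → b ∉ K → b ∈ closure B → ∃ w ∈ B, JoinedIn TB b w := by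
    intro b hb hbK hbB
    obtain ⟨r, hr, hrK⟩ := Metric.isOpen_iff.1 hKo b hbK
    obtain ⟨w, hw, hwB⟩ := mem_closure_iff.1 hbB (ball b r) isOpen_ball (mem_ball_self hr)
    refine ⟨w, hwB, line _ _ _ fun t ht => ?_⟩
    rw [hTB]
    refine ⟨?_, ?_⟩
    · rw [AffineMap.lineMap_apply, vsub_eq_sub, vadd_eq_add, map_add, map_smul, map_sub]
      have := hBi w hwB
      simp only [Complex.add_im, Complex.real_smul, Complex.mul_im, Complex.ofReal_re,
        Complex.ofReal_im, Complex.sub_im, zero_mul, add_zero]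
      rw [hb]
      have := mul_nonneg ht.1 this.le
      linarith
    · apply hrK
      have hseg : AffineMap.lineMap b w t ∈ segment ℝ b w := by
        rw [segment_eq_image_lineMap]
        exact ⟨t, ht, rfl⟩
      exact (convex_ball b r).segment_subset (mem_ball_self hr) hw hseg
  obtain ⟨w2, hw2, J2⟩ := near b2 i2 o2 h2
  obtain ⟨w4, hw4, J4⟩ := near b4 i4 o4 h4
  have J' : JoinedIn TB b2 b4 := (J2.trans ((hBp.joinedIn w2 hw2 w4 hw4).mono sB)).trans J4.symm
  obtain ⟨β, hβ⟩ := J'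
  have ra : ∀ s : ℝ, α.extend s ∈ K := by
    intro s
    rw [hK, ← α.extend_range]
    exact mem_range_self s
  have rb : ∀ s : ℝ, β.extend s ∈ TB := by
    intro s
    have : β.extend s ∈ range β := by
      rw [← β.extend_range]
      exact mem_range_self s
    obtain ⟨t, ht⟩ := this
    rw [← ht]
    exact hβ t
  have hreal : ∀ b : ℝ × ℝ, (φ b).im = 0 → φ b = (((φ b).re : ℝ) : ℂ) := by
    intro b hb
    apply Complex.ext
    · simp
    · simp [hb]
  obtain ⟨s, t, hst⟩ := _root_.Pool.Agent.H207R2.BL.interlace (fun s => φ (α.extend s)) (fun s => φ (β.extend s))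
    (φ.continuous.comp α.continuous_extend) (φ.continuous.comp β.continuous_extend)
    (fun s => hTAi _ (hKT (ra s))) (fun s => by
      have := rb s
      rw [hTB] at this
      exact this.1) (φ b1).re (φ b2).re (φ b3).re (φ b4).re r12 r23 r34
    (by simp only [Path.extend_zero]; exact hreal b1 i1)
    (by simp only [Path.extend_one]; exact hreal b3 i3)
    (by simp only [Path.extend_zero]; exact hreal b2 i2)
    (by simp only [Path.extend_one]; exact hreal b4 i4)
  have h5 := hinj hst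
  have h6 := rb t
  rw [hTB, ← h5] at h6
  exact h6.2 (ra s)

end Pool.Agent.Q80.ND
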