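import Pool.Agent.Q80.ND.N6

set_option autoImplicit false

namespace Pool.Agent.Q80.ND

open Set Metric Topology

open scoped Classical in
lemma count {X : Type} (D : ℕ → X) (n : ℕ)
    (par : ∀ i j, i < n → j < n → Even i → ¬ Even j → D i ≠ D j)
    (nc : ∀ i p j q, i < p → p < j → j < q → q < n → Even i → Even j → D i = D j → D p = D q →
      D p = D i) : ∀ r a, 0 < r → Even a → a + 2 * r ≤ n →
      r + 1 ≤ ((Finset.Ico a (a + 2 * r)).image D).card := by
  intro r
  induction r using Nat.strong_induction_on with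
  | _ r ih =>
    intro a hr ha hn
    by_cases h : ∃ j, a < j ∧ j < a + 2 * r ∧ D j = D a
    · obtain ⟨j, hj1, hj2, hj3⟩ := h
      have hje : Even j := by
        by_contra hcon
        exact par a j (by omega) (by omega) ha hcon hj3.symm
      obtain ⟨r1, hr1⟩ : ∃ r1, j = a + 2 * r1 := by
        obtain ⟨x, hx⟩ := ha
        obtain ⟨y, hy⟩ := hje
        exact ⟨y - x, by omega⟩
      obtain ⟨r2, hr2⟩ : ∃ r2, r = r1 + r2 := ⟨r - r1, by omega⟩
      have h1 := ih r1 (by omega) a (by omega) ha (by omega)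
      have h2 := ih r2 (by omega) j (by omega) hje (by omega)
      rw [← hr1] at h1
      have e2 : j + 2 * r2 = a + 2 * r := by omega
      rw [e2] at h2
      have hun : (Finset.Ico a (a + 2 * r)).image D =
          (Finset.Ico a j).image D ∪ (Finset.Ico j (a + 2 * r)).image D := by
        rw [← Finset.image_union, Finset.Ico_union_Ico_eq_Ico (by omega) (by omega)]
      have hint : ((Finset.Ico a j).image D ∩ (Finset.Ico j (a + 2 * r)).image D) ⊆ {D a} := by
        intro x hx
        rw [Finset.mem_inter, Finset.mem_image, Finset.mem_image] at hx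
        obtain ⟨⟨p, hp, hpx⟩, ⟨q, hq, hqx⟩⟩ := hx
        rw [Finset.mem_Ico] at hp hq
        rw [Finset.mem_singleton]
        rcases hp.1.lt_or_eq with h3 | h3
        · rcases hq.1.lt_or_eq with h4 | h4
          · rw [← hpx]
            exact nc a p j q h3 hp.2 h4 (by omega) ha hje hj3.symm (by rw [hpx, hqx])
          · rw [← hqx, ← h4, hj3]
        · rw [← hpx, ← h3]
      have h3 := Finset.card_union_add_card_inter ((Finset.Ico a j).image D)
        ((Finset.Ico j (a + 2 * r)).image D)
      have h4 := Finset.card_le_card hint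
      rw [Finset.card_singleton] at h4
      rw [hun]
      omega
    · push Not at h
      by_cases hr1 : r = 1
      · subst hr1
        have h1 : ({D a, D (a + 1)} : Finset X) ⊆ (Finset.Ico a (a + 2 * 1)).image D := by
          intro x hx
          rw [Finset.mem_insert, Finset.mem_singleton] at hx
          rw [Finset.mem_image]
          rcases hx with hx | hx
          · exact ⟨a, by rw [Finset.mem_Ico]; omega, hx.symm⟩
          · exact ⟨a + 1, by rw [Finset.mem_Ico]; omega, hx.symm⟩
        have h2 := Finset.card_le_card h1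
        have h3 : D a ≠ D (a + 1) := fun h4 => h (a + 1) (by omega) (by omega) h4.symm
        rw [Finset.card_pair h3] at h2
        exact h2
      · have h1 := ih (r - 1) (by omega) (a + 2) (by omega) (by
          obtain ⟨x, hx⟩ := ha
          exact ⟨x + 1, by omega⟩) (by omega)
        have e1 : a + 2 + 2 * (r - 1) = a + 2 * r := by omega
        rw [e1] at h1
        have h2 : D a ∉ (Finset.Ico (a + 2) (a + 2 * r)).image D := by
          intro h3
          rw [Finset.mem_image] at h3
          obtain ⟨j, hj, hj2⟩ := h3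
          rw [Finset.mem_Ico] at hj
          exact h j (by omega) hj.2 hj2
        have h3 : insert (D a) ((Finset.Ico (a + 2) (a + 2 * r)).image D) ⊆
            (Finset.Ico a (a + 2 * r)).image D := by
          intro x hx
          rw [Finset.mem_insert] at hx
          rcases hx with hx | hx
          · rw [hx]
            exact Finset.mem_image_of_mem D (by rw [Finset.mem_Ico]; omega)
          · rw [Finset.mem_image] at hx ⊢
            obtain ⟨j, hj, hjx⟩ := hx
            rw [Finset.mem_Ico] at hj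
            exact ⟨j, by rw [Finset.mem_Ico]; omega, hjx⟩
        have h4 := Finset.card_le_card h3
        rw [Finset.card_insert_of_notMem h2] at h4
        omega

lemma sign_const {v : ℝ × ℝ → ℝ} (hv : Continuous v) {D : Set (ℝ × ℝ)} (hD : IsPreconnected D)
    (h0 : ∀ z ∈ D, v z ≠ 0) {z : ℝ × ℝ} (hz : z ∈ D) (hpos : 0 < v z) : ∀ w ∈ D, 0 < v w := by
  intro w hw
  by_contra hcon
  push Not at hcon
  have h1 : (0 : ℝ) ∈ v '' D := by
    have h2 := (hD.image v hv.continuousOn).ordConnected.out (mem_image_of_mem v hw)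
      (mem_image_of_mem v hz)
    exact h2 ⟨hcon, hpos.le⟩
  obtain ⟨x, hx, hx0⟩ := h1
  exact h0 x hx hx0

theorem topo (Ω : Set (ℝ × ℝ)) (hΩ : IsOpen Ω) (hconv : Convex ℝ Ω) (φ : (ℝ × ℝ) →L[ℝ] ℂ)
    (hinj : Function.Injective φ) (him : ∀ z ∈ Ω, 0 < (φ z).im) (v : ℝ × ℝ → ℝ) (hv : Continuous v)
    (m : ℕ) (hm : 0 < m) (b : ℕ → ℝ × ℝ) (hb0 : ∀ i < 2 * m, (φ (b i)).im = 0)
    (hbr : ∀ i j, i < j → j < 2 * m → (φ (b i)).re < (φ (b j)).re)
    (hbc : ∀ i < 2 * m, b i ∈ closure Ω) (hpos : ∀ i < 2 * m, Even i → 0 < v (b i))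
    (hneg : ∀ i < 2 * m, ¬ Even i → b i ∈ closure {z ∈ Ω | v z < 0}) :
    ((m + 1 : ℕ) : ℕ∞) ≤ (comps {z ∈ Ω | v z ≠ 0}).encard := by
  classical
  obtain ⟨W, hW⟩ : ∃ W : Set (ℝ × ℝ), W = {z ∈ Ω | v z ≠ 0} := ⟨_, rfl⟩
  rw [← hW]
  have hWo : IsOpen W := by
    rw [hW]
    exact hΩ.inter (isOpen_compl_singleton.preimage hv)
  have hWΩ : W ⊆ Ω := by
    rw [hW]
    exact fun z hz => hz.1
  have hWv : ∀ z ∈ W, v z ≠ 0 := by
    rw [hW]
    exact fun z hz => hz.2
  by_cases hfin : (comps W).Finite
  swap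
  · rw [Set.Infinite.encard_eq hfin]
    exact le_top
  -- the domains
  have hex : ∀ i, ∃ D : Set (ℝ × ℝ), i < 2 * m → D ∈ comps W ∧ b i ∈ closure D ∧
      (Even i → (∀ z ∈ D, 0 < v z) ∧
        ∃ z ∈ D, ∀ t ∈ Ioc (0 : ℝ) 1, AffineMap.lineMap (b i) z t ∈ D) ∧
      (¬ Even i → ∀ z ∈ D, v z < 0) := by
    intro i
    by_cases hi : i < 2 * m
    swap
    · exact ⟨∅, fun h => absurd h hi⟩
    by_cases he : Even i
    · have h1 := hpos i hi he
      have hopen : IsOpen {z | 0 < v z} := isOpen_lt continuous_const hv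
      obtain ⟨r, hr, hball⟩ := Metric.isOpen_iff.1 hopen (b i) h1
      obtain ⟨z, hz, hzΩ⟩ := mem_closure_iff.1 (hbc i hi) (ball (b i) r) isOpen_ball
        (mem_ball_self hr)
      have hUc : Convex ℝ (Ω ∩ ball (b i) r) := hconv.inter (convex_ball _ _)
      have hUW : Ω ∩ ball (b i) r ⊆ W := by
        intro w hw
        rw [hW]
        exact ⟨hw.1, ne_of_gt (hball hw.2)⟩
      have hzU : z ∈ Ω ∩ ball (b i) r := ⟨hzΩ, hz⟩
      have hzW := hUW hzU
      have hsub : Ω ∩ ball (b i) r ⊆ connectedComponentIn W z :=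
        hUc.isPreconnected.subset_connectedComponentIn hzU hUW
      have hline : ∀ t ∈ Ioc (0 : ℝ) 1, AffineMap.lineMap (b i) z t ∈ Ω ∩ ball (b i) r := by
        intro t ht
        constructor
        · rcases ht.2.lt_or_eq with h | h
          · have := hconv.openSegment_closure_interior_subset_interior (hbc i hi)
              (by rw [hΩ.interior_eq]; exact hzΩ : z ∈ interior Ω)
            rw [hΩ.interior_eq] at this
            apply this
            rw [openSegment_eq_image_lineMap]
            exact ⟨t, ⟨ht.1, h⟩, rfl⟩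
          · rw [h]
            simpa using hzΩ
        · have hseg : AffineMap.lineMap (b i) z t ∈ segment ℝ (b i) z := by
            rw [segment_eq_image_lineMap]
            exact ⟨t, ⟨ht.1.le, ht.2⟩, rfl⟩
          exact (convex_ball (b i) r).segment_subset (mem_ball_self hr) hz hseg
      have hDm : connectedComponentIn W z ∈ comps W := ⟨z, hzW, rfl⟩
      refine ⟨connectedComponentIn W z, fun _ => ⟨hDm, ?_, fun _ => ⟨?_, ?_⟩, fun h => absurd he h⟩⟩
      · rw [_root_.mem_closure_iff]
        intro o ho hbo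
        have ho2 : IsOpen (o ∩ ball (b i) r) := ho.inter isOpen_ball
        obtain ⟨w, hw, hwΩ⟩ := mem_closure_iff.1 (hbc i hi) _ ho2 ⟨hbo, mem_ball_self hr⟩
        exact ⟨w, hw.1, hsub ⟨hwΩ, hw.2⟩⟩
      · exact sign_const hv (comps_conn hDm).isPreconnected (fun w hw => hWv w (comps_sub hDm hw))
          (hsub hzU) (hball hz)
      · exact ⟨z, hsub hzU, fun t ht => hsub (hline t ht)⟩
    · have h1 := hneg i hi he
      obtain ⟨C, hC⟩ : ∃ C : Set (Set (ℝ × ℝ)), C = {D ∈ comps W | ∀ z ∈ D, v z < 0} := ⟨_, rfl⟩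
      have hCf : C.Finite := by
        rw [hC]
        exact hfin.subset fun D hD => hD.1
      have h2 : {z ∈ Ω | v z < 0} ⊆ ⋃ D ∈ C, D := by
        intro z hz
        have hzW : z ∈ W := by
          rw [hW]
          exact ⟨hz.1, ne_of_lt hz.2⟩
        have hDm : connectedComponentIn W z ∈ comps W := ⟨z, hzW, rfl⟩
        rw [mem_iUnion₂]
        refine ⟨connectedComponentIn W z, ?_, mem_connectedComponentIn hzW⟩
        rw [hC]
        refine ⟨hDm, fun w hw => ?_⟩
        have := sign_const (v := fun x => -v x) hv.neg (comps_conn hDm).isPreconnected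
          (fun w hw => neg_ne_zero.2 (hWv w (comps_sub hDm hw))) (mem_connectedComponentIn hzW)
          (by simpa using hz.2) w hw
        simpa using this
      have h3 := closure_mono h2 h1
      rw [hCf.closure_biUnion, mem_iUnion₂] at h3
      obtain ⟨D, hD, hbD⟩ := h3
      rw [hC] at hD
      exact ⟨D, fun _ => ⟨hD.1, hbD, fun h => absurd h he, fun _ => hD.2⟩⟩
  choose D hD using hex
  have par : ∀ i j, i < 2 * m → j < 2 * m → Even i → ¬ Even j → D i ≠ D j := by
    intro i j hi hj hei hej heq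
    obtain ⟨h1, h2, h3, h4⟩ := hD i hi
    obtain ⟨g1, g2, g3, g4⟩ := hD j hj
    obtain ⟨z, hz⟩ := (comps_conn h1).nonempty
    have a1 := (h3 hei).1 z hz
    have a2 := g4 hej z (by rw [← heq]; exact hz)
    linarith
  have nc : ∀ i p j q, i < p → p < j → j < q → q < 2 * m → Even i → Even j → D i = D j →
      D p = D q → D p = D i := by
    intro i p j q hip hpj hjq hq hei hej hij hpq
    by_contra hne
    obtain ⟨i1, i2, i3, i4⟩ := hD i (by omega)
    obtain ⟨j1, j2, j3, j4⟩ := hD j (by omega)
    obtain ⟨p1, p2, p3, p4⟩ := hD p (by omega)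
    obtain ⟨q1, q2, q3, q4⟩ := hD q (by omega)
    rw [← hij] at j3
    rw [← hpq] at q2
    exact nocross φ hinj (comps_open hWo i1) (comps_conn i1)
      (fun z hz => him z (hWΩ (comps_sub i1 hz))) (comps_open hWo p1) (comps_conn p1)
      (fun z hz => him z (hWΩ (comps_sub p1 hz))) (comps_disj i1 p1 (Ne.symm hne))
      (b i) (b p) (b j) (b q) (hb0 i (by omega)) (hb0 p (by omega)) (hb0 j (by omega))
      (hb0 q (by omega)) (hbr i p hip (by omega)) (hbr p j hpj (by omega)) (hbr j q hjq hq)
      (i3 hei).2 (j3 hej).2 p2 q2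
  have h1 := count D (2 * m) par nc m 0 hm (by simp) (by omega)
  have h2 : (((Finset.Ico 0 (0 + 2 * m)).image D : Finset (Set (ℝ × ℝ))) : Set (Set (ℝ × ℝ))) ⊆
      comps W := by
    intro X hX
    rw [Finset.mem_coe, Finset.mem_image] at hX
    obtain ⟨i, hi, rfl⟩ := hX
    rw [Finset.mem_Ico] at hi
    exact (hD i (by omega)).1
  have h3 := Set.encard_le_encard h2
  rw [Set.encard_coe_eq_coe_finsetCard] at h3
  exact le_trans (by exact_mod_cast h1) h3

end Pool.Agent.Q80.ND
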