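import Pool.Agent.Q80.ND.N4
import Pool.Agent.Q80.ND.N5
import Pool.Agent.Q80.ND.N7

set_option autoImplicit false

namespace Pool.Agent.Q80.ND

open Set Metric Topology Real

/-- the open square `(0, π)²` -/
def Sq : Set (ℝ × ℝ) := {z | 0 < z.1 ∧ z.1 < π ∧ 0 < z.2 ∧ z.2 < π}

lemma Sq_eq : Sq = Ioo 0 π ×ˢ Ioo 0 π := by
  ext z
  simp only [Sq, Set.mem_ofPred_eq, mem_prod, mem_Ioo, and_assoc]

lemma Sq_open : IsOpen Sq := by
  rw [Sq_eq]
  exact isOpen_Ioo.prod isOpen_Ioo

lemma Sq_conv : Convex ℝ Sq := by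
  rw [Sq_eq]
  exact (convex_Ioo _ _).prod (convex_Ioo _ _)

lemma side_closure {t : ℝ} (h0 : 0 < t) (h1 : t < π) : ((0 : ℝ), t) ∈ closure Sq := by
  rw [Sq_eq, closure_prod_eq, closure_Ioo pi_pos.ne]
  exact ⟨⟨le_rfl, pi_pos.le⟩, ⟨h0.le, h1.le⟩⟩

lemma U_even (n : ℕ) (c : ℕ → ℕ → ℝ) (x y : ℝ) : U n c (-x, y) = U n c (x, y) := by
  unfold U
  simp only [mul_neg, cos_neg]

lemma U_smul (n : ℕ) (c : ℕ → ℕ → ℝ) (s : ℝ) (z : ℝ × ℝ) :
    U n (fun p q => s * c p q) z = s * U n c z := by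
  unfold U
  rw [Finset.mul_sum]
  refine Finset.sum_congr rfl fun p _ => ?_
  rw [Finset.mul_sum]
  refine Finset.sum_congr rfl fun q _ => ?_
  ring

lemma side_analytic (n : ℕ) (c : ℕ → ℕ → ℝ) (t r : ℝ) (hr : 0 < r)
    (h : ∀ y, t < y → y < t + r → U n c (0, y) = 0) (y : ℝ) : U n c (0, y) = 0 := by
  have h1 : ContDiff ℝ ⊤ (fun y : ℝ => U n c (0, y)) := by
    unfold U
    fun_prop
  have h2 := (contDiff_omega_iff_analyticOnNhd (𝕜 := ℝ)).1 h1
  have h3 := h2.eqOn_zero_of_preconnected_of_eventuallyEq_zero isPreconnected_univ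
    (mem_univ (t + r / 2)) (by
      filter_upwards [Ioo_mem_nhds (show t < t + r / 2 by linarith) (show t + r / 2 < t + r by linarith)]
        with x hx
      exact h x hx.1 hx.2)
  exact h3 (mem_univ y)

/-- Near a zero on the side of the square there are points of the square with negative values. -/
lemma zero_neg (n : ℕ) (c : ℕ → ℕ → ℝ) (hc : ∀ p q, c p q ≠ 0 → p ^ 2 + q ^ 2 = n) (t : ℝ)
    (h0 : 0 < t) (h1 : t < π) (hz : U n c (0, t) = 0) (hne : ∃ y, U n c (0, y) ≠ 0) :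
    ((0 : ℝ), t) ∈ closure {z ∈ Sq | U n c z < 0} := by
  by_contra hcon
  rw [Metric.mem_closure_iff] at hcon
  push Not at hcon
  obtain ⟨r, hr, hcon⟩ := hcon
  obtain ⟨y0, hy0⟩ := hne
  apply hy0
  obtain ⟨r', hr', h2, h3, h4, h5⟩ : ∃ r' : ℝ, 0 < r' ∧ r' ≤ r ∧ r' ≤ t ∧ r' ≤ π - t ∧ r' ≤ π := by
    refine ⟨min (min r t) (π - t), ?_, ?_, ?_, ?_, ?_⟩
    · exact lt_min (lt_min hr h0) (by linarith)
    · exact le_trans (min_le_left _ _) (min_le_left _ _)
    · exact le_trans (min_le_left _ _) (min_le_right _ _)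
    · exact min_le_right _ _
    · exact le_trans (min_le_right _ _) (by linarith)
  have hpos : ∀ x y : ℝ, 0 < x → x < r' → |y - t| < r' → 0 ≤ U n c (x, y) := by
    intro x y hx hxr hy
    by_contra hlt
    push Not at hlt
    have hy2 := abs_lt.1 hy
    have hmem : (x, y) ∈ {z ∈ Sq | U n c z < 0} :=
      ⟨⟨hx, by linarith, by linarith [hy2.1], by linarith [hy2.2]⟩, hlt⟩
    have := hcon (x, y) hmem
    rw [Prod.dist_eq] at this
    have h6 : max (dist (0 : ℝ) x) (dist t y) < r := by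
      refine max_lt ?_ ?_
      · rw [Real.dist_eq, zero_sub, abs_neg, abs_of_pos hx]
        linarith
      · rw [Real.dist_eq, abs_sub_comm]
        linarith
    exact absurd h6 (not_lt.2 this)
  have hpos0 : ∀ y : ℝ, |y - t| < r' → 0 ≤ U n c (0, y) := by
    intro y hy
    have hcont : Continuous fun x : ℝ => U n c (x, y) := (U_cont n c).comp (by fun_prop)
    have hlim : Filter.Tendsto (fun x : ℝ => U n c (x, y)) (𝓝[>] 0) (𝓝 (U n c (0, y))) :=
      (hcont.tendsto 0).mono_left nhdsWithin_le_nhds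
    refine ge_of_tendsto hlim ?_
    filter_upwards [Ioo_mem_nhdsGT hr'] with x hx
    exact hpos x y hx.1 hx.2 hy
  have hall : ∀ x y : ℝ, |x| < r' → |y - t| < r' → 0 ≤ U n c (x, y) := by
    intro x y hx hy
    rcases lt_trichotomy x 0 with h | h | h
    · rw [← U_even]
      exact hpos (-x) y (by linarith) (by rwa [abs_of_neg h] at hx) hy
    · rw [h]
      exact hpos0 y hy
    · exact hpos x y h (by rwa [abs_of_pos h] at hx) hy
  refine side_analytic n c t r' hr' (fun y hy1 hy2 => ?_) y0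
  have h6 := zero_circle n c hc (0, t) hz (y - t) (fun θ => ?_) (π / 2) ⟨by positivity, by linarith [pi_pos]⟩
  · simp only [cos_pi_div_two, sin_pi_div_two, mul_zero, mul_one, add_zero, zero_add] at h6
    have e : t + (y - t) = y := by ring
    rwa [e] at h6
  · have ha : 0 < y - t := by linarith
    refine hall _ _ ?_ ?_
    · simp only [zero_add]
      rw [abs_mul, abs_of_pos ha]
      have := mul_le_mul_of_nonneg_left (abs_cos_le_one θ) ha.le
      linarith
    · have e : t + (y - t) * sin θ - t = (y - t) * sin θ := by ring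
      simp only [e]
      rw [abs_mul, abs_of_pos ha]
      have := mul_le_mul_of_nonneg_left (abs_sin_le_one θ) ha.le
      linarith

/-- the map `(x, y) ↦ y + i x` -/
noncomputable def phi : (ℝ × ℝ) →L[ℝ] ℂ :=
  (Complex.ofRealCLM.comp (ContinuousLinearMap.snd ℝ ℝ ℝ)) +
    Complex.I • (Complex.ofRealCLM.comp (ContinuousLinearMap.fst ℝ ℝ ℝ))

lemma phi_re (z : ℝ × ℝ) : (phi z).re = z.2 := by simp [phi]

lemma phi_im (z : ℝ × ℝ) : (phi z).im = z.1 := by simp [phi]

lemma phi_inj : Function.Injective phi := by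
  intro z w h
  have h1 := congrArg Complex.re h
  have h2 := congrArg Complex.im h
  rw [phi_re, phi_re] at h1
  rw [phi_im, phi_im] at h2
  exact Prod.ext h2 h1

/-- From alternating values on a side to domains. -/
lemma side_domains (n : ℕ) (c : ℕ → ℕ → ℝ) (hc : ∀ p q, c p q ≠ 0 → p ^ 2 + q ^ 2 = n) (s : ℝ)
    (hs : s = 1 ∨ s = -1) (m : ℕ) (hm : 0 < m) (y : ℕ → ℝ) (hy : ∀ i < 2 * m, 0 < y i ∧ y i < π)
    (hmono : ∀ i, i + 1 < 2 * m → y i < y (i + 1))
    (hpos : ∀ i < 2 * m, Even i → 0 < s * U n c (0, y i))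
    (hneg : ∀ i < 2 * m, ¬ Even i → s * U n c (0, y i) ≤ 0) :
    ((m + 1 : ℕ) : ℕ∞) ≤ (comps {z ∈ Sq | U n c z ≠ 0}).encard := by
  have hs0 : s ≠ 0 := by rcases hs with h | h <;> rw [h] <;> norm_num
  have e : {z ∈ Sq | U n c z ≠ 0} = {z ∈ Sq | s * U n c z ≠ 0} := by
    ext z
    simp [hs0]
  rw [e]
  have hcont : Continuous fun z => s * U n c z := continuous_const.mul (U_cont n c)
  have hmono' : ∀ j i, i < j → j < 2 * m → y i < y j := by
    intro j
    induction j with
    | zero => intro i hi; omega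
    | succ j ih =>
      intro i hi hj
      rcases Nat.lt_succ_iff_lt_or_eq.1 hi with h | h
      · exact (ih i h (by omega)).trans (hmono j hj)
      · rw [h]
        exact hmono j hj
  refine topo Sq Sq_open Sq_conv phi phi_inj (fun z hz => by rw [phi_im]; exact hz.1) _ hcont m hm
    (fun i => (0, y i)) (fun i _ => by rw [phi_im]) (fun i j hij hj => by
      rw [phi_re, phi_re]
      exact hmono' j i hij hj) (fun i hi => side_closure (hy i hi).1 (hy i hi).2)
    (fun i hi he => hpos i hi he) (fun i hi he => ?_)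
  rcases (hneg i hi he).lt_or_eq with h | h
  · have hopen : IsOpen {z | s * U n c z < 0} := isOpen_lt hcont continuous_const
    rw [_root_.mem_closure_iff]
    intro o ho hbo
    obtain ⟨w, hw, hwS⟩ := _root_.mem_closure_iff.1 (side_closure (hy i hi).1 (hy i hi).2) _
      (ho.inter hopen) ⟨hbo, h⟩
    exact ⟨w, hw.1, hwS, hw.2⟩
  · have h2 := zero_neg n (fun p q => s * c p q) (fun p q hpq => hc p q (fun h0 => hpq (by
      rw [h0, mul_zero]))) (y i) (hy i hi).1 (hy i hi).2 (by rw [U_smul]; exact h)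
      ⟨y 0, by rw [U_smul]; exact ne_of_gt (hpos 0 (by omega) (by simp))⟩
    simp only [U_smul] at h2
    exact h2

end Pool.Agent.Q80.ND
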