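import Pool.Agent.Q80.ND.N8
import Pool.Agent.Q197.FM.R2

set_option autoImplicit false

namespace Pool.Agent.Q80.ND

open Set Metric Topology Real

/-- the coefficients on the side `x = 0` -/
noncomputable def dc (n : ℕ) (c : ℕ → ℕ → ℝ) (q : ℕ) : ℝ := ∑ p ∈ Finset.range (n + 1), c p q

lemma le_of_sq {n p q : ℕ} (h : p ^ 2 + q ^ 2 = n) : p ≤ n ∧ q ≤ n := by
  constructor <;> nlinarith [Nat.le_self_pow (n := 2) (by norm_num) p,
    Nat.le_self_pow (n := 2) (by norm_num) q]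

lemma dc_eq {n : ℕ} {c : ℕ → ℕ → ℝ} (hc : ∀ p q, c p q ≠ 0 → p ^ 2 + q ^ 2 = n) {p q : ℕ}
    (h : p ^ 2 + q ^ 2 = n) : dc n c q = c p q := by
  unfold dc
  rw [Finset.sum_eq_single p]
  · intro p' _ hp'
    by_contra hne
    have h1 := hc p' q hne
    apply hp'
    have h2 : p' ^ 2 = p ^ 2 := by omega
    exact (Nat.pow_left_injective (n := 2) (by norm_num)) h2
  · intro hp
    rw [Finset.mem_range] at hp
    have := (le_of_sq h).1
    omega

lemma dc_ne {n : ℕ} {c : ℕ → ℕ → ℝ} (hc : ∀ p q, c p q ≠ 0 → p ^ 2 + q ^ 2 = n) {q : ℕ}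
    (h : dc n c q ≠ 0) : ∃ p, p ^ 2 + q ^ 2 = n := by
  by_contra hcon
  push Not at hcon
  apply h
  unfold dc
  refine Finset.sum_eq_zero fun p _ => ?_
  by_contra hne
  exact hcon p (hc p q hne)

lemma U_side {n N : ℕ} {c : ℕ → ℕ → ℝ} (hc : ∀ p q, c p q ≠ 0 → p ^ 2 + q ^ 2 = n) (hN : N ≤ n)
    (hmax : ∀ p q, p ^ 2 + q ^ 2 = n → q ≤ N) (j : ℕ) :
    U n c (0, π * j / N) = G N (dc n c) j := by
  unfold U G
  simp only [mul_zero, cos_zero, one_mul]
  rw [Finset.sum_comm]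
  have h1 : ∀ q ∈ Finset.range (n + 1), ∑ p ∈ Finset.range (n + 1), c p q * cos (q * (π * j / N)) =
      dc n c q * cc N q j := by
    intro q _
    unfold dc cc
    rw [Finset.sum_mul]
  rw [Finset.sum_congr rfl h1]
  symm
  refine Finset.sum_subset (Finset.range_subset_range.2 (by omega)) fun q hq hq' => ?_
  rw [Finset.mem_range] at hq hq'
  have : dc n c q = 0 := by
    by_contra hne
    obtain ⟨p, hp⟩ := dc_ne hc hne
    have := hmax p q hp
    omega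
  rw [this, zero_mul]

/-- the extreme lattice points -/
lemma extreme {n a b : ℕ} (hn : 0 < n) (hab : a ^ 2 + b ^ 2 = n) : ∃ p N : ℕ, p ^ 2 + N ^ 2 = n ∧
    p ≤ N ∧ 0 < N ∧ N ≤ n ∧ (∀ x y, x ^ 2 + y ^ 2 = n → y ≤ N) ∧
    (∀ x y, x ^ 2 + y ^ 2 = n → y ≠ p → Nat.sqrt (2 * N - 1) ≤ y) := by
  classical
  obtain ⟨S, hS⟩ : ∃ S : Finset ℕ, S = (Finset.range (n + 1)).filter (fun y => ∃ x, x ^ 2 + y ^ 2 = n) :=
    ⟨_, rfl⟩
  have hbS : b ∈ S := by
    rw [hS, Finset.mem_filter, Finset.mem_range]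
    exact ⟨by have := (le_of_sq hab).2; omega, a, hab⟩
  have hne : S.Nonempty := ⟨b, hbS⟩
  obtain ⟨N, hN⟩ : ∃ N, N = S.max' hne := ⟨_, rfl⟩
  have hNS : N ∈ S := by rw [hN]; exact S.max'_mem hne
  have hmax : ∀ x y, x ^ 2 + y ^ 2 = n → y ≤ N := by
    intro x y hxy
    rw [hN]
    apply Finset.le_max'
    rw [hS, Finset.mem_filter, Finset.mem_range]
    exact ⟨by have := (le_of_sq hxy).2; omega, x, hxy⟩
  rw [hS, Finset.mem_filter, Finset.mem_range] at hNS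
  obtain ⟨hNn, p, hp⟩ := hNS
  have hpN : p ≤ N := hmax N p (by rw [add_comm]; exact hp)
  have hN0 : 0 < N := by
    rcases Nat.eq_zero_or_pos N with h | h
    · subst h
      have : p = 0 := by omega
      subst this
      simp at hp
      omega
    · exact h
  refine ⟨p, N, hp, hpN, hN0, by omega, hmax, ?_⟩
  intro x y hxy hyp
  have hxN : x ≤ N := hmax y x (by rw [add_comm]; exact hxy)
  have hyp' : p < y := by
    rcases lt_trichotomy y p with h | h | h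
    · exfalso
      nlinarith
    · exact absurd h hyp
    · exact h
  have hxN' : x < N := by
    by_contra hcon
    have : x = N := by omega
    subst this
    nlinarith
  have h1 : 2 * N - 1 ≤ y ^ 2 := by
    obtain ⟨k, rfl⟩ : ∃ k, N = x + 1 + k := ⟨N - x - 1, by omega⟩
    have h3 : y ^ 2 = p ^ 2 + (x + 1 + k) ^ 2 - x ^ 2 := by omega
    have h4 : (x + 1 + k) ^ 2 = x ^ 2 + (2 * (x + 1 + k) - 1) + (k * (2 * x + k)) := by
      have : 2 * (x + 1 + k) - 1 = 2 * x + 1 + 2 * k := by omega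
      rw [this]
      ring
    omega
  calc Nat.sqrt (2 * N - 1) ≤ Nat.sqrt (y ^ 2) := Nat.sqrt_le_sqrt h1
    _ = y := Nat.sqrt_eq' y

lemma swap_comps (W : Set (ℝ × ℝ)) : (comps (Prod.swap '' W)).encard = (comps W).encard := by
  have h1 : comps (Prod.swap '' W) = (fun D => Prod.swap '' D) '' comps W := by
    ext D
    constructor
    · rintro ⟨_, ⟨z, hz, rfl⟩, rfl⟩
      refine ⟨connectedComponentIn W z, ⟨z, hz, rfl⟩, ?_⟩
      exact (Homeomorph.prodComm ℝ ℝ).image_connectedComponentIn hz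
    · rintro ⟨_, ⟨z, hz, rfl⟩, rfl⟩
      refine ⟨z.swap, ⟨z, hz, rfl⟩, ?_⟩
      exact (Homeomorph.prodComm ℝ ℝ).image_connectedComponentIn hz
  rw [h1]
  exact (Function.Injective.injOn (Set.image_injective.2 Prod.swap_injective)).encard_image

/-- the count on one side -/
lemma one_side {n p N M m : ℕ} (c : ℕ → ℕ → ℝ) (hc : ∀ p q, c p q ≠ 0 → p ^ 2 + q ^ 2 = n)
    (hp : p ^ 2 + N ^ 2 = n) (hpN : p ≤ N) (hN : 0 < N) (hNn : N ≤ n)
    (hmax : ∀ x y, x ^ 2 + y ^ 2 = n → y ≤ N)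
    (hL : ∀ x y, x ^ 2 + y ^ 2 = n → y ≠ p → Nat.sqrt (2 * N - 1) ≤ y)
    (hM : ∀ F : Finset (ℤ × ℤ), (∀ z ∈ F, z.1 ^ 2 + z.2 ^ 2 = n) → F.card ≤ M)
    (hne : ∃ a b, c a b ≠ 0) (hab : |c N p| ≤ |c p N|) (hm : 0 < m)
    (hbig : 8 * (M : ℝ) ^ 2 * (8 * m + 9) ≤ Nat.sqrt (2 * N - 1)) :
    ((m + 1 : ℕ) : ℕ∞) ≤ (comps {z ∈ Sq | U n c z ≠ 0}).encard := by
  classical
  have hp' : N ^ 2 + p ^ 2 = n := by rw [add_comm]; exact hp
  have hL0 : 0 < Nat.sqrt (2 * N - 1) := Nat.sqrt_pos.2 (by omega)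
  have hLN : Nat.sqrt (2 * N - 1) ≤ N := by
    have : 2 * N - 1 ≤ N * N := by
      obtain ⟨k, rfl⟩ : ∃ k, N = k + 1 := ⟨N - 1, by omega⟩
      have : 2 * (k + 1) - 1 = 2 * k + 1 := by omega
      rw [this]
      nlinarith
    calc Nat.sqrt (2 * N - 1) ≤ Nat.sqrt (N * N) := Nat.sqrt_le_sqrt this
      _ = N := Nat.sqrt_eq N
  have hcard : ((Finset.range (N + 1)).filter (fun q => dc n c q ≠ 0)).card ≤ M := by
    obtain ⟨F, hF⟩ : ∃ F : Finset (ℤ × ℤ), F = ((Finset.range (N + 1)).filter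
      (fun q => dc n c q ≠ 0)).image (fun q : ℕ => (((Nat.sqrt (n - q ^ 2) : ℕ) : ℤ), (q : ℤ))) :=
      ⟨_, rfl⟩
    have h1 := hM F (by
      intro z hz
      rw [hF, Finset.mem_image] at hz
      obtain ⟨q, hq, rfl⟩ := hz
      rw [Finset.mem_filter] at hq
      obtain ⟨x, hx⟩ := dc_ne hc hq.2
      have h2 : n - q ^ 2 = x ^ 2 := by omega
      simp only
      rw [h2, Nat.sqrt_eq']
      exact_mod_cast hx)
    rw [hF, Finset.card_image_of_injective _ (fun a b hab => by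
      have := congrArg Prod.snd hab
      simpa using this)] at h1
    exact h1
  have hd1 : dc n c p = c N p := dc_eq hc hp'
  have hd2 : dc n c N = c p N := dc_eq hc hp
  have h1 := comb hN hL0 hLN (dc n c) p hpN (fun q _ hqp hq => by
      obtain ⟨x, hx⟩ := dc_ne hc hq
      exact hL x q hx hqp) hcard (by rw [hd1, hd2]; exact hab) (by
      obtain ⟨a, b, hab'⟩ := hne
      have h2 := hc a b hab'
      exact ⟨b, hmax a b h2, by rw [dc_eq hc h2]; exact hab'⟩)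
  have hM1 : (1 : ℝ) ≤ M := by
    have h3 := hM {((p : ℤ), (N : ℤ))} (by
      intro z hz
      rw [Finset.mem_singleton] at hz
      rw [hz]
      simp only
      exact_mod_cast hp)
    rw [Finset.card_singleton] at h3
    exact_mod_cast h3
  have hTV : 8 * (m : ℝ) + 8 ≤ TV N (dc n c) := by
    have h4 : 8 * (M : ℝ) ^ 2 * (8 * m + 9) ≤ 8 * (M : ℝ) ^ 2 * (1 + TV N (dc n c)) := hbig.trans h1
    have h5 : 0 < 8 * (M : ℝ) ^ 2 := by positivity
    have h6 := le_of_mul_le_mul_left h4 h5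
    linarith
  obtain ⟨s, hs, t, ht1, ht2, ht3⟩ := alt hN (dc n c) m hm hTV
  have hN' : (0 : ℝ) < N := by exact_mod_cast hN
  refine side_domains n c hc s hs m hm (fun i => π * t i / N) (fun i hi => ?_) (fun i hi => ?_)
    (fun i hi he => ?_) (fun i hi he => ?_)
  · have h5 := ht1 i hi
    have h6 : (0 : ℝ) < t i := by exact_mod_cast h5.1
    have h7 : (t i : ℝ) < N := by exact_mod_cast h5.2
    refine ⟨by positivity, ?_⟩
    rw [div_lt_iff₀ hN']
    exact mul_lt_mul_of_pos_left h7 pi_pos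
  · have h7 : (t i : ℝ) < t (i + 1) := by exact_mod_cast ht2 i hi
    rw [div_lt_div_iff_of_pos_right hN']
    exact mul_lt_mul_of_pos_left h7 pi_pos
  · rw [U_side hc hNn hmax]
    exact (ht3 i hi).1 he
  · rw [U_side hc hNn hmax]
    exact (ht3 i hi).2 he

theorem main {n M m : ℕ} (hn : 0 < n) (c : ℕ → ℕ → ℝ)
    (hc : ∀ p q, c p q ≠ 0 → p ^ 2 + q ^ 2 = n) (hne : ∃ a b, c a b ≠ 0)
    (hM : ∀ F : Finset (ℤ × ℤ), (∀ z ∈ F, z.1 ^ 2 + z.2 ^ 2 = n) → F.card ≤ M) (hm : 0 < m)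
    (hbig : 24 * (M : ℝ) ^ 2 * (8 * m + 9) ≤ (n : ℝ) ^ (1 / 4 : ℝ)) :
    ((m + 1 : ℕ) : ℕ∞) ≤ (comps {z ∈ Sq | U n c z ≠ 0}).encard := by
  obtain ⟨a, b, hab⟩ := hne
  obtain ⟨p, N, h1, h2, h3, h4, h5, h6⟩ := extreme hn (hc a b hab)
  have hn' : (0 : ℝ) < n := by exact_mod_cast hn
  have hL : (n : ℝ) ^ (1 / 4 : ℝ) ≤ 3 * (Nat.sqrt (2 * N - 1) : ℕ) := by
    obtain ⟨x, hx⟩ : ∃ x : ℝ, x = (n : ℝ) ^ (1 / 4 : ℝ) := ⟨_, rfl⟩
    have hx0 : 0 < x := by rw [hx]; positivity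
    have hx4 : x ^ 4 = n := by
      rw [hx, ← Real.rpow_natCast, ← Real.rpow_mul hn'.le]
      norm_num
    obtain ⟨L, hLd⟩ : ∃ L, L = Nat.sqrt (2 * N - 1) := ⟨_, rfl⟩
    have hL1 : 1 ≤ L := by
      rw [hLd]
      exact Nat.sqrt_pos.2 (by omega)
    have hL2 : 2 * N - 1 < (L + 1) * (L + 1) := by
      rw [hLd]
      exact Nat.lt_succ_sqrt _
    have hL3 : (2 * N - 1 : ℝ) < ((L : ℝ) + 1) * (L + 1) := by
      have : ((2 * N - 1 : ℕ) : ℝ) < (((L + 1) * (L + 1) : ℕ) : ℝ) := by exact_mod_cast hL2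
      rw [Nat.cast_sub (by omega)] at this
      push_cast at this
      exact this
    have hL1' : (1 : ℝ) ≤ L := by exact_mod_cast hL1
    have hN1 : (1 : ℝ) ≤ N := by exact_mod_cast h3
    have hNn : (n : ℝ) ≤ 2 * N ^ 2 := by
      have : n ≤ 2 * N ^ 2 := by nlinarith
      exact_mod_cast this
    have hNL : (N : ℝ) ≤ 4 * L ^ 2 := by nlinarith
    rw [← hx, ← hLd]
    by_contra hcon
    push Not at hcon
    have h7 : (3 * (L : ℝ)) ^ 4 < x ^ 4 := pow_lt_pow_left₀ hcon (by positivity) (by norm_num)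
    rw [hx4] at h7
    have h8 : (N : ℝ) ^ 2 ≤ (4 * L ^ 2) ^ 2 := pow_le_pow_left₀ (by positivity) hNL 2
    nlinarith
  have hbig' : 8 * (M : ℝ) ^ 2 * (8 * m + 9) ≤ Nat.sqrt (2 * N - 1) := by linarith
  rcases le_total |c N p| |c p N| with h | h
  · exact one_side c hc h1 h2 h3 h4 h5 h6 hM ⟨a, b, hab⟩ h hm hbig'
  · have h7 := one_side (fun x y => c y x) (fun x y hxy => by rw [add_comm]; exact hc y x hxy)
      h1 h2 h3 h4 h5 h6 hM ⟨b, a, hab⟩ h hm hbig'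
    have h8 : {z ∈ Sq | U n (fun x y => c y x) z ≠ 0} = Prod.swap '' {z ∈ Sq | U n c z ≠ 0} := by
      have h9 : ∀ z : ℝ × ℝ, U n (fun x y => c y x) z = U n c z.swap := by
        intro z
        unfold U
        rw [Finset.sum_comm]
        refine Finset.sum_congr rfl fun x _ => Finset.sum_congr rfl fun y _ => ?_
        simp only [Prod.fst_swap, Prod.snd_swap]
        ring
      ext z
      rw [Set.image_swap_eq_preimage_swap]
      simp only [mem_preimage, Set.mem_ofPred_eq, h9]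
      constructor
      · rintro ⟨⟨x1, x2, x3, x4⟩, x5⟩
        exact ⟨⟨x3, x4, x1, x2⟩, x5⟩
      · rintro ⟨⟨x1, x2, x3, x4⟩, x5⟩
        exact ⟨⟨x3, x4, x1, x2⟩, x5⟩
    rw [h8, swap_comps] at h7
    exact h7

end Pool.Agent.Q80.ND
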